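import Pool.Agent.H99.FLF.PIG
import Pool.Agent.H18.PB.Defs

/-!
# Exact labels from polynomial labels

A polynomial label (`Pool.PB.Lab`) of balls at the window `w` and precision `P` gives, on an event
whose relative probability is at least a constant, an exact label `z`: a function of the point and
a function of the line with the window, which determines the cell of the window and a polynomial
graph on which the sample lies, in the coordinates of the cell.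
-/

set_option autoImplicit false

namespace Pool.FLF

open Finset Real
open Pool.Agent.H49.Ent Pool.Agent.H32.Dense Pool.STK Pool.KA Pool.KSAT Pool.K2S Pool.KS3
open Pool.KAL Pool.PB Pool.KST

variable {m J : ℕ}

/-- The chart with passive coordinate `i₁`; the base coordinates are the time (in the slot `i₁`)
and the other coordinates. -/
def chI (i₁ : Fin m) : Option (Fin m) → Option (Fin m) :=
  fun o => o.elim (some i₁) (fun j => if j = i₁ then none else some j)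

/-- The cell of a point of resolution `r` at the window `w`. -/
def celx {ζ : Type} (J w r : ℕ) (ξ : (Fin m → ℤ) × (ℕ × ζ)) : ℕ × (Fin m → ℤ) :=
  (ξ.2.1 / 2 ^ (J - w), fun i => ξ.1 i / 2 ^ (r - w))

/-- The corner of the cell in the base. -/
noncomputable def crI (i₁ : Fin m) (w : ℕ) (c : ℕ × (Fin m → ℤ)) : Fin m → ℝ :=
  Function.update (fun j => (c.2 j : ℝ) / 2 ^ w) i₁ ((c.1 : ℝ) / 2 ^ w)

/-- The graph in the coordinates of the cell. -/
noncomputable def grI (i₁ : Fin m) (w : ℕ) (c : ℕ × (Fin m → ℤ)) (G : MvPolynomial (Fin m) ℝ) :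
    MvPolynomial (Fin m) ℝ := rsG G (crI i₁ w c) ((c.2 i₁ : ℝ) / 2 ^ w) (1 / 2 ^ w)

lemma celx_ptr (F : Fam m J) {w r : ℕ} (hw : w ≤ r) (ω : F.Ω) :
    celx J w r (ptr F r ω) = (F.T1 w ω, F.X w ω) := by
  refine Prod.ext rfl ?_
  funext i
  have h1 := Xr_emod F (w := w) (L := r - w) (r := r) (by omega) ω i
  have h2 := Int.emod_add_mul_ediv (F.X r ω i) (2 ^ (r - w))
  have h3 : (0 : ℤ) < 2 ^ (r - w) := by positivity
  have h4 : (2 : ℤ) ^ (r - w) * F.X w ω i = 2 ^ (r - w) * (F.X r ω i / 2 ^ (r - w)) := by linarith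
  exact (mul_left_cancel₀ h3.ne' h4).symm

/-- The position of the base point in the cell. -/
lemma bp_cell (F : Fam m J) (i₁ : Fin m) {w : ℕ} (hw : w ≤ J) (ω : F.Ω) (j : Fin m) :
    crI i₁ w (F.T1 w ω, F.X w ω) j ≤ bp F i₁ ω j ∧
      bp F i₁ ω j ≤ crI i₁ w (F.T1 w ω, F.X w ω) j + 1 / 2 ^ w := by
  have hw0 : (0 : ℝ) < 2 ^ w := by positivity
  unfold crI bp
  by_cases hj : j = i₁
  · subst hj
    rw [Function.update_self, Function.update_self]
    have h1 := T1_real F hw ω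
    rw [div_le_iff₀ hw0, ← add_div, le_div_iff₀ hw0]
    constructor <;> nlinarith [h1.1, h1.2]
  · rw [Function.update_of_ne hj, Function.update_of_ne hj]
    have h1 : (F.X w ω j : ℝ) ≤ 2 ^ w * F.x ω j ∧ 2 ^ w * F.x ω j < F.X w ω j + 1 := by
      unfold Fam.X fl rd
      exact ⟨Int.floor_le _, Int.lt_floor_add_one _⟩
    simp only
    rw [div_le_iff₀ hw0, ← add_div, le_div_iff₀ hw0]
    constructor <;> nlinarith [h1.1, h1.2]

/-- The position of the rounded base point in the cell. -/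
lemma base_cell (F : Fam m J) (i₁ : Fin m) {w L P : ℕ} (h : w + L = P) (hP : P ≤ J) (ω : F.Ω)
    (j : Fin m) :
    crI i₁ w (F.T1 w ω, F.X w ω) j +
      1 / 2 ^ w * rp (2 ^ L) (ppos L (chI i₁)) (trp F P ω) (some j) =
      crI i₁ P (F.T1 P ω, F.X P ω) j := by
  have hM : ((2 ^ L : ℕ) : ℝ) = 2 ^ L := by push_cast; rfl
  have hP2 : (2 : ℝ) ^ P = 2 ^ w * 2 ^ L := by rw [← h, pow_add]
  unfold crI rp ppos chI
  rw [hM]
  by_cases hj : j = i₁
  · subst hj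
    rw [Function.update_self, Function.update_self]
    simp only [Option.elim, if_true]
    have h8 : (trp F P ω).2.1 = F.T1 P ω := rfl
    have h4 := T1_div F (w := w) (K := L) (by omega) ω
    rw [h] at h4
    rw [h8, h4, hP2]
    have h5 := Nat.div_add_mod (F.T1 P ω) (2 ^ L)
    have h6 : (F.T1 P ω : ℝ) = 2 ^ L * ((F.T1 P ω / 2 ^ L : ℕ) : ℝ) +
        ((F.T1 P ω % 2 ^ L : ℕ) : ℝ) := by exact_mod_cast h5.symm
    rw [h6]
    field_simp
  · rw [Function.update_of_ne hj, Function.update_of_ne hj]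
    simp only [Option.elim, if_neg hj]
    have h1 := emod_toNat ((trp F P ω).1 j) L
    have h2 : (((((trp F P ω).1 j % 2 ^ L).toNat : ℕ)) : ℝ) =
        (F.X P ω j : ℝ) - 2 ^ L * F.X w ω j := by
      have h3 : (((((trp F P ω).1 j % 2 ^ L).toNat : ℕ) : ℤ) : ℝ) =
          ((F.X P ω j - 2 ^ L * F.X w ω j : ℤ) : ℝ) := by
        rw [h1]
        congr 1
        exact Xr_emod F h ω j
      have h4 : (((((trp F P ω).1 j % 2 ^ L).toNat : ℕ)) : ℝ) =
          (((((trp F P ω).1 j % 2 ^ L).toNat : ℕ) : ℤ) : ℝ) := by push_cast; rfl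
      rw [h4, h3]
      push_cast
      ring
    rw [h2, hP2]
    field_simp
    ring

/-- The passive coordinate of the point in the cell. -/
lemma pas_cell (F : Fam m J) (i₁ : Fin m) {w L P : ℕ} (h : w + L = P) (ω : F.Ω) :
    (F.X w ω i₁ : ℝ) / 2 ^ w + 1 / 2 ^ w * rp (2 ^ L) (ppos L (chI i₁)) (trp F P ω) none =
      (F.X P ω i₁ : ℝ) / 2 ^ P := by
  have hM : ((2 ^ L : ℕ) : ℝ) = 2 ^ L := by push_cast; rfl
  have hP2 : (2 : ℝ) ^ P = 2 ^ w * 2 ^ L := by rw [← h, pow_add]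
  unfold rp ppos chI
  rw [hM]
  simp only [Option.elim]
  have h1 := emod_toNat ((trp F P ω).1 i₁) L
  have h2 : (((((trp F P ω).1 i₁ % 2 ^ L).toNat : ℕ)) : ℝ) =
      (F.X P ω i₁ : ℝ) - 2 ^ L * F.X w ω i₁ := by
    have h3 : (((((trp F P ω).1 i₁ % 2 ^ L).toNat : ℕ) : ℤ) : ℝ) =
        ((F.X P ω i₁ - 2 ^ L * F.X w ω i₁ : ℤ) : ℝ) := by
      rw [h1]
      congr 1
      exact Xr_emod F h ω i₁
    have h4 : (((((trp F P ω).1 i₁ % 2 ^ L).toNat : ℕ)) : ℝ) =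
        (((((trp F P ω).1 i₁ % 2 ^ L).toNat : ℕ) : ℤ) : ℝ) := by push_cast; rfl
    rw [h4, h3]
    push_cast
    ring
  rw [h2, hP2]
  field_simp
  ring

/-- The rounded base coordinates are in the unit cube. -/
lemma base_unit (F : Fam m J) (i₁ : Fin m) (L P : ℕ) (ω : F.Ω) (j : Fin m) :
    0 ≤ rp (2 ^ L) (ppos L (chI i₁)) (trp F P ω) (some j) ∧
      rp (2 ^ L) (ppos L (chI i₁)) (trp F P ω) (some j) ≤ 1 := by
  unfold rp
  have hM : (0 : ℝ) < ((2 ^ L : ℕ) : ℝ) := by positivity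
  refine ⟨by positivity, ?_⟩
  rw [div_le_one hM]
  have : ppos L (chI i₁) (trp F P ω) (some j) < 2 ^ L := by
    unfold ppos
    cases chI i₁ (some j) with
    | none => exact Nat.mod_lt _ (Nat.two_pow_pos L)
    | some i =>
      simp only [Option.elim]
      have h1 := emod_toNat ((trp F P ω).1 i) L
      have h2 : (trp F P ω).1 i % 2 ^ L < 2 ^ L := Int.emod_lt_of_pos _ (by positivity)
      have h3 : ((((trp F P ω).1 i % 2 ^ L).toNat : ℕ) : ℤ) < ((2 ^ L : ℕ) : ℤ) := by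
        rw [h1]
        push_cast
        exact h2
      exact_mod_cast h3
  exact_mod_cast this.le

lemma totalDegree_grI (i₁ : Fin m) (w : ℕ) (c : ℕ × (Fin m → ℤ)) {G : MvPolynomial (Fin m) ℝ}
    {K : ℕ} (hG : G.totalDegree ≤ K) : (grI i₁ w c G).totalDegree ≤ K := by
  unfold grI rsG
  refine (MvPolynomial.totalDegree_mul _ _).trans ?_
  rw [MvPolynomial.totalDegree_C, zero_add]
  refine (MvPolynomial.totalDegree_sub _ _).trans (max_le ?_ ?_)
  · exact (totalDegree_shf_le _ _ _).trans hG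
  · rw [MvPolynomial.totalDegree_C]
    exact Nat.zero_le _

/-- The polynomial label in the coordinates of the cell. -/
lemma lab_near (F : Fam m J) (i₁ : Fin m) {w L P : ℕ} (hwL : w + L = P) (hw : w ≤ J)
    {G H : MvPolynomial (Fin m) ℝ} (ω : F.Ω)
    (h : ∀ b : Fin m → ℝ, (∀ j, |b j - bp F i₁ ω j| ≤ 1 / 2 ^ w) →
      |MvPolynomial.eval b G - MvPolynomial.eval b H| ≤ 1 / 2 ^ P)
    {y : Fin m → ℝ} (hy : y ∈ cube (fun _ : Fin m => (0 : ℝ)) 1) :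
    |MvPolynomial.eval y (grI i₁ w (F.T1 w ω, F.X w ω) G - grI i₁ w (F.T1 w ω, F.X w ω) H)| ≤
      1 / 2 ^ L := by
  have hs0 : (0 : ℝ) < 1 / 2 ^ w := by positivity
  have hP2 : (2 : ℝ) ^ P = 2 ^ w * 2 ^ L := by rw [← hwL, pow_add]
  have h1 := h (fun j => crI i₁ w (F.T1 w ω, F.X w ω) j + 1 / 2 ^ w * y j) (by
    intro j
    have h1 := bp_cell F i₁ hw ω j
    have h2 := hy j
    have h3 : 0 ≤ 1 / 2 ^ w * y j := mul_nonneg hs0.le h2.1
    have h4 : 1 / 2 ^ w * y j ≤ 1 / 2 ^ w := by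
      have : y j ≤ 1 := by linarith [h2.2]
      exact mul_le_of_le_one_right hs0.le this
    rw [abs_le]
    constructor <;> linarith [h1.1, h1.2])
  unfold grI
  rw [map_sub, eval_rsG, eval_rsG, ← sub_div, sub_sub_sub_cancel_right, abs_div, abs_of_pos hs0,
    div_le_iff₀ hs0]
  refine h1.trans (le_of_eq ?_)
  rw [hP2]
  field_simp

/-- The slopes in the coordinates of the cell. -/
lemma lab_reg (F : Fam m J) (i₁ : Fin m) {w K : ℕ} (hw : w ≤ J)
    {G : MvPolynomial (Fin m) ℝ} (hG : G.totalDegree ≤ K) (ω : F.Ω)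
    (h : ∀ b : Fin m → ℝ, (∀ j, |b j - bp F i₁ ω j| ≤ 1 / 2 ^ w) →
      ∀ j, |MvPolynomial.eval b (MvPolynomial.pderiv j G)| ≤ 2 * m) :
    RegG (grI i₁ w (F.T1 w ω, F.X w ω) G) (fun _ => 0) 1 K (2 * m) := by
  have hs0 : (0 : ℝ) < 1 / 2 ^ w := by positivity
  have h2 : RegG G (crI i₁ w (F.T1 w ω, F.X w ω)) (1 / 2 ^ w) K (2 * m) := by
    refine ⟨hG, fun y hy i => h y (fun j => ?_) i⟩
    have h3 := bp_cell F i₁ hw ω j
    have h4 := hy j
    rw [abs_le]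
    constructor <;> linarith [h3.1, h3.2, h4.1, h4.2]
  exact regG_rs (b := (F.X w ω i₁ : ℝ) / 2 ^ w) hs0 h2

/-- The sample is near the graph in the coordinates of the cell. -/
lemma lab_dist (F : Fam m J) (i₁ : Fin m) {w L P : ℕ} (hwL : w + L = P) (hPJ : P ≤ J)
    {G : MvPolynomial (Fin m) ℝ} (ω : F.Ω)
    (h0 : |F.x ω i₁ - MvPolynomial.eval (bp F i₁ ω) G| ≤ 1 / 2 ^ P)
    (h : ∀ b : Fin m → ℝ, (∀ j, |b j - bp F i₁ ω j| ≤ 1 / 2 ^ w) →
      ∀ j, |MvPolynomial.eval b (MvPolynomial.pderiv j G)| ≤ 2 * m) :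
    |rp (2 ^ L) (ppos L (chI i₁)) (trp F P ω) none -
      MvPolynomial.eval (fun j => rp (2 ^ L) (ppos L (chI i₁)) (trp F P ω) (some j))
        (grI i₁ w (F.T1 w ω, F.X w ω) G)| ≤ (2 + 2 * m ^ 2) / 2 ^ L := by
  have hs0 : (0 : ℝ) < 1 / 2 ^ w := by positivity
  have hP2 : (2 : ℝ) ^ P = 2 ^ w * 2 ^ L := by rw [← hwL, pow_add]
  have hPpos : (0 : ℝ) < 2 ^ P := by positivity
  have e1 : MvPolynomial.eval
      (fun j => rp (2 ^ L) (ppos L (chI i₁)) (trp F P ω) (some j))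
        (grI i₁ w (F.T1 w ω, F.X w ω) G) =
      (MvPolynomial.eval (crI i₁ P (F.T1 P ω, F.X P ω)) G -
        (F.X w ω i₁ : ℝ) / 2 ^ w) / (1 / 2 ^ w) := by
    unfold grI
    rw [eval_rsG]
    have h0 : (fun j => crI i₁ w (F.T1 w ω, F.X w ω) j + 1 / 2 ^ w *
        rp (2 ^ L) (ppos L (chI i₁)) (trp F P ω) (some j)) = crI i₁ P (F.T1 P ω, F.X P ω) := by
      funext j
      exact base_cell F i₁ hwL hPJ ω j
    rw [h0]
  have e2 : rp (2 ^ L) (ppos L (chI i₁)) (trp F P ω) none =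
      ((F.X P ω i₁ : ℝ) / 2 ^ P - (F.X w ω i₁ : ℝ) / 2 ^ w) / (1 / 2 ^ w) := by
    rw [← pas_cell F i₁ hwL ω]
    field_simp
    ring
  have hxP : |(F.X P ω i₁ : ℝ) / 2 ^ P - F.x ω i₁| ≤ 1 / 2 ^ P := by
    have a1 : (F.X P ω i₁ : ℝ) ≤ 2 ^ P * F.x ω i₁ ∧ 2 ^ P * F.x ω i₁ < F.X P ω i₁ + 1 := by
      unfold Fam.X fl rd
      exact ⟨Int.floor_le _, Int.lt_floor_add_one _⟩
    have a2 : (F.X P ω i₁ : ℝ) / 2 ^ P - F.x ω i₁ = (F.X P ω i₁ - 2 ^ P * F.x ω i₁) / 2 ^ P := by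
      field_simp
    rw [a2, abs_div, abs_of_pos hPpos]
    refine div_le_div_of_nonneg_right ?_ hPpos.le
    rw [abs_le]
    constructor <;> linarith [a1.1, a1.2]
  have hmv : |MvPolynomial.eval (bp F i₁ ω) G -
      MvPolynomial.eval (crI i₁ P (F.T1 P ω, F.X P ω)) G| ≤ m * (2 * m) * (1 / 2 ^ P) := by
    refine mean_value G (crI i₁ P (F.T1 P ω, F.X P ω)) (1 / 2 ^ P) (2 * m)
      (by positivity) ?_ _ _ ?_ ?_
    · intro y' hy' i
      refine h y' (fun j => ?_) i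
      have h6 := bp_cell F i₁ hPJ ω j
      have h7 := hy' j
      have h8 : (1 : ℝ) / 2 ^ P ≤ 1 / 2 ^ w := inv_mono (by omega)
      rw [abs_le]
      constructor <;> linarith [h6.1, h6.2, h7.1, h7.2]
    · intro j
      constructor
      · exact le_rfl
      · have : (0 : ℝ) ≤ 1 / 2 ^ P := by positivity
        linarith
    · intro j
      exact bp_cell F i₁ hPJ ω j
  rw [e1, e2, ← sub_div, sub_sub_sub_cancel_right, abs_div, abs_of_pos hs0, div_le_iff₀ hs0]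
  have h10 : |(F.X P ω i₁ : ℝ) / 2 ^ P -
      MvPolynomial.eval (crI i₁ P (F.T1 P ω, F.X P ω)) G| ≤
      1 / 2 ^ P + 1 / 2 ^ P + m * (2 * m) * (1 / 2 ^ P) := by
    have t1 : (F.X P ω i₁ : ℝ) / 2 ^ P -
        MvPolynomial.eval (crI i₁ P (F.T1 P ω, F.X P ω)) G =
        ((F.X P ω i₁ : ℝ) / 2 ^ P - F.x ω i₁) +
        (F.x ω i₁ - MvPolynomial.eval (bp F i₁ ω) G) +
        (MvPolynomial.eval (bp F i₁ ω) G -
          MvPolynomial.eval (crI i₁ P (F.T1 P ω, F.X P ω)) G) := by ring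
    rw [t1]
    refine (abs_add_le _ _).trans (add_le_add ?_ hmv)
    exact (abs_add_le _ _).trans (add_le_add hxP h0)
  refine h10.trans (le_of_eq ?_)
  rw [hP2]
  field_simp
  ring

/-- The coefficients up to the precision `2 ^ (-L)`. -/
noncomputable def fco {V : Type} (L : ℕ) (g : V → MvPolynomial (Fin m) ℝ) (v : V)
    (α : Fin m →₀ ℕ) : ℤ := ⌊(2 : ℝ) ^ L * MvPolynomial.coeff α (g v)⌋

/-- **Rounding of polynomials.** Two polynomials which are close on the unit cube have the same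
rounded coefficients, up to a constant vector, on a large event. The rounding has `s` more digits
than the distance. -/
theorem round_lab (m K s : ℕ) : ∃ c : ℝ, 0 < c ∧
    ∀ (Ω Ξ S : Type) [Fintype Ω] (p : Ω → ℝ) (pt : Ω → Ξ) (sl : Ω → S)
      (g : Ξ → MvPolynomial (Fin m) ℝ) (h : S → MvPolynomial (Fin m) ℝ) (L : ℕ) (A : Ω → Prop),
      IsLaw p → (∀ ξ, (g ξ).totalDegree ≤ K) → (∀ l, (h l).totalDegree ≤ K) →
      (∀ ω, A ω → ∀ y ∈ cube (fun _ : Fin m => (0 : ℝ)) 1,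
        |MvPolynomial.eval y (g (pt ω) - h (sl ω))| ≤ 1 / 2 ^ L) →
      ∃ (v : (Fin m →₀ ℕ) → ℤ) (B : Ω → Prop), Sub B A ∧ c * Pe p A ≤ Pe p B ∧
        ∀ ω, B ω → fco (L + s) g (pt ω) = fun α => fco (L + s) h (sl ω) α + v α := by
  classical
  obtain ⟨C, hC, hcoef⟩ := coefSum_le_unit m K
  obtain ⟨bx, hbx⟩ : ∃ bx, bx = expBox (Fin m) K := ⟨_, rfl⟩
  obtain ⟨c₀, hc₀⟩ := exists_nat_ge (2 ^ s * C)
  obtain ⟨S, hS⟩ : ∃ S : Finset ((α : ↥bx) → ℤ), S = Fintype.piFinset fun _ =>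
    Finset.Icc (-(c₀ : ℤ)) c₀ := ⟨_, rfl⟩
  have hSne : S.Nonempty := by
    refine ⟨fun _ => 0, ?_⟩
    rw [hS, Fintype.mem_piFinset]
    intro α
    rw [Finset.mem_Icc]
    constructor <;> omega
  have hScard : (0 : ℝ) < S.card := by exact_mod_cast hSne.card_pos
  refine ⟨1 / S.card, by positivity, ?_⟩
  intro Ω Ξ T _ p pt sl g h L A hp hg hh hnear
  have hL0 : (0 : ℝ) < 2 ^ L := by positivity
  have hLs0 : (0 : ℝ) < 2 ^ (L + s) := by positivity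
  have hdiff : ∀ ω, A ω → ∀ α,
      |fco (L + s) g (pt ω) α - fco (L + s) h (sl ω) α| ≤ (c₀ : ℤ) := by
    intro ω hω α
    refine floor_near ?_
    have h1 := hcoef (g (pt ω) - h (sl ω)) (1 / 2 ^ L)
      ((MvPolynomial.totalDegree_sub _ _).trans (max_le (hg _) (hh _))) (hnear ω hω)
    have h2 := abs_coeff_le (g (pt ω) - h (sl ω)) α
    rw [MvPolynomial.coeff_sub] at h2
    rw [← mul_sub, abs_mul, abs_of_pos hLs0]
    calc (2 : ℝ) ^ (L + s) * |MvPolynomial.coeff α (g (pt ω)) -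
          MvPolynomial.coeff α (h (sl ω))| ≤ 2 ^ (L + s) * (C * (1 / 2 ^ L)) :=
          mul_le_mul_of_nonneg_left (h2.trans h1) hLs0.le
      _ = 2 ^ s * C := by rw [pow_add]; field_simp
      _ ≤ c₀ := hc₀
  have hout : ∀ (V : Type) (k : V → MvPolynomial (Fin m) ℝ), (∀ u, (k u).totalDegree ≤ K) →
      ∀ u, ∀ α ∉ bx, fco (L + s) k u α = 0 := by
    intro V k hk u α hα
    have h0 : MvPolynomial.coeff α (k u) = 0 := by
      by_contra hne
      refine hα ?_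
      rw [hbx]
      exact support_subset_expBox (k u) K (hk u) (MvPolynomial.mem_support_iff.mpr hne)
    unfold fco
    rw [h0, mul_zero, Int.floor_zero]
  obtain ⟨v, -, hv⟩ := pigeon hp (A := A)
    (fun ω (α : ↥bx) => fco (L + s) g (pt ω) α.1 - fco (L + s) h (sl ω) α.1) S hSne (by
      intro ω hω
      rw [hS, Fintype.mem_piFinset]
      intro α
      rw [Finset.mem_Icc]
      exact abs_le.mp (hdiff ω hω α.1))
  refine ⟨fun α => if hα : α ∈ bx then v ⟨α, hα⟩ else 0, fun ω => A ω ∧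
    (fun (α : ↥bx) => fco (L + s) g (pt ω) α.1 - fco (L + s) h (sl ω) α.1) = v,
    fun ω hω => hω.1, ?_, ?_⟩
  · refine le_trans (le_of_eq ?_) hv
    ring
  · intro ω hω
    funext α
    simp only
    by_cases hα : α ∈ bx
    · have h1 : fco (L + s) g (pt ω) α - fco (L + s) h (sl ω) α = v ⟨α, hα⟩ :=
        congrFun hω.2 ⟨α, hα⟩
      rw [dif_pos hα]
      omega
    · rw [dif_neg hα, hout _ g hg _ α hα, hout _ h hh _ α hα, add_zero]

/-- The exact label, as a function of the point. -/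
noncomputable def zxE (i₁ : Fin m) {ζ : Type} (J w r L : ℕ)
    (G : (Fin m → ℤ) × (ℕ × ζ) → MvPolynomial (Fin m) ℝ) (ξ : (Fin m → ℤ) × (ℕ × ζ)) :
    (ℕ × (Fin m → ℤ)) × (ζ × ((Fin m →₀ ℕ) → ℤ)) :=
  (celx J w r ξ, (ξ.2.2, fco L (fun ξ => grI i₁ w (celx J w r ξ) (G ξ)) ξ))

/-- The exact label, as a function of the line and the window. -/
noncomputable def zsE (i₁ : Fin m) {ζ : Type} (w L : ℕ)
    (cl : ((Fin m → ℝ) × (Fin m → ℝ)) × ζ × ℕ → Fin m → ℤ)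
    (H : ((Fin m → ℝ) × (Fin m → ℝ)) × ζ × ℕ → MvPolynomial (Fin m) ℝ)
    (v : (Fin m →₀ ℕ) → ℤ) (l : ((Fin m → ℝ) × (Fin m → ℝ)) × ζ × ℕ) :
    (ℕ × (Fin m → ℤ)) × (ζ × ((Fin m →₀ ℕ) → ℤ)) :=
  ((l.2.2, cl l), (l.2.1, fun α => fco L (fun l => grI i₁ w (l.2.2, cl l) (H l)) l α + v α))

/-- **Exact labels.** The constant `C₁` does not depend on the class `K`. -/
theorem exact_label (m K : ℕ) : ∃ c : ℝ, 0 < c ∧
    ∀ (J : ℕ) (F : Fam m J) (i₁ : Fin m) (r w L P : ℕ) (A : F.Ω → Prop), w + L = P → P ≤ J →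
      w ≤ r → Lab F i₁ r K w w P A →
      ∃ B : F.Ω → Prop, Sub B A ∧ c * Pe F.p A ≤ Pe F.p B ∧
        ∃ (Z : Type) (zx : (Fin m → ℤ) × (ℕ × F.ζ) → Z)
          (zs : ((Fin m → ℝ) × (Fin m → ℝ)) × F.ζ × ℕ → Z) (cz : Z → ℕ × (Fin m → ℤ))
          (cζ : Z → F.ζ)
          (cl : ((Fin m → ℝ) × (Fin m → ℝ)) × F.ζ × ℕ → Fin m → ℤ)
          (G : Z → MvPolynomial (Fin m) ℝ), ∀ ω, B ω →
            zx (ptr F r ω) = zs (slam F w ω) ∧
            cz (zx (ptr F r ω)) = (F.T1 w ω, F.X w ω) ∧ cζ (zx (ptr F r ω)) = F.Z ω ∧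
            F.X w ω = cl (slam F w ω) ∧
            RegG (G (zx (ptr F r ω))) (fun _ => 0) 1 K (3 + 2 * m + 2 * m ^ 2) ∧
            |rp (2 ^ L) (ppos L (chI i₁)) (trp F P ω) none -
              MvPolynomial.eval (fun j => rp (2 ^ L) (ppos L (chI i₁)) (trp F P ω) (some j))
                (G (zx (ptr F r ω)))| ≤ (3 + 2 * m + 2 * m ^ 2) / 2 ^ L := by
  classical
  obtain ⟨bx, hbx⟩ : ∃ bx, bx = expBox (Fin m) K := ⟨_, rfl⟩
  obtain ⟨s, hs⟩ : ∃ s : ℕ, (bx.card : ℝ) ≤ 2 ^ s := by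
    refine ⟨bx.card, ?_⟩
    exact_mod_cast Nat.lt_two_pow_self.le
  obtain ⟨c, hc, hround⟩ := round_lab m K s
  refine ⟨c / 3 ^ m, by positivity, ?_⟩
  intro J F i₁ r w L P A hwL hPJ hwr hlab
  have hw : w ≤ J := by omega
  have hL0 : (0 : ℝ) < 2 ^ L := by positivity
  have hLs0 : (0 : ℝ) < 2 ^ (L + s) := by positivity
  obtain ⟨B₁, hB1, hP1, cl, hcl⟩ := cell_event F hw A
  obtain ⟨G₀, H₀, hG₀, hH₀, hGH⟩ := hlab
  have hcelx : ∀ ω, celx J w r (ptr F r ω) = (F.T1 w ω, F.X w ω) := fun ω => celx_ptr F hwr ω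
  have hT : ∀ ω, (slam F w ω).2.2 = F.T1 w ω := fun _ => rfl
  -- the rescaled graphs
  obtain ⟨Gx, hGx⟩ : ∃ Gx : (Fin m → ℤ) × (ℕ × F.ζ) → MvPolynomial (Fin m) ℝ,
    Gx = fun ξ => grI i₁ w (celx J w r ξ) (G₀ ξ) := ⟨_, rfl⟩
  obtain ⟨Hl, hHl⟩ : ∃ Hl : ((Fin m → ℝ) × (Fin m → ℝ)) × F.ζ × ℕ → MvPolynomial (Fin m) ℝ,
    Hl = fun l => grI i₁ w (l.2.2, cl l) (H₀ l) := ⟨_, rfl⟩
  have hGxe : ∀ ω, Gx (ptr F r ω) = grI i₁ w (F.T1 w ω, F.X w ω) (G₀ (ptr F r ω)) := by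
    intro ω
    rw [hGx]
    simp only
    rw [hcelx ω]
  have hHle : ∀ ω, B₁ ω → Hl (slam F w ω) = grI i₁ w (F.T1 w ω, F.X w ω) (H₀ (slam F w ω)) := by
    intro ω hω
    rw [hHl]
    simp only
    rw [hT ω, ← hcl ω hω]
  have hdGx : ∀ ξ, (Gx ξ).totalDegree ≤ K := fun ξ => by
    rw [hGx]
    exact totalDegree_grI i₁ w _ (hG₀ ξ)
  have hdHl : ∀ l, (Hl l).totalDegree ≤ K := fun l => by
    rw [hHl]
    exact totalDegree_grI i₁ w _ (hH₀ l)
  obtain ⟨v, B, hBB1, hPB, hBv⟩ := hround F.Ω ((Fin m → ℤ) × (ℕ × F.ζ))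
    (((Fin m → ℝ) × (Fin m → ℝ)) × F.ζ × ℕ) F.p (ptr F r) (slam F w) Gx Hl L B₁ F.isLaw hdGx hdHl
    (by
      intro ω hω y hy
      rw [hGxe ω, hHle ω hω]
      exact lab_near F i₁ hwL hw ω (fun b hb => ((hGH ω (hB1 ω hω)).2 b hb).2) hy)
  refine ⟨B, hBB1.trans hB1, ?_, ?_⟩
  · refine le_trans (le_of_eq ?_) ((mul_le_mul_of_nonneg_left hP1 hc.le).trans hPB)
    ring
  -- the label
  have hzz : ∀ ω, B ω → zxE i₁ J w r (L + s) G₀ (ptr F r ω) =
      zsE i₁ w (L + s) cl H₀ v (slam F w ω) := by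
    intro ω hω
    unfold zxE zsE
    refine Prod.ext ?_ (Prod.ext rfl ?_)
    · simp only
      rw [hcelx ω, hT ω, ← hcl ω (hBB1 ω hω)]
    · have h1 := hBv ω hω
      rw [hGx, hHl] at h1
      exact h1
  obtain ⟨G, hG⟩ : ∃ G : (ℕ × (Fin m → ℤ)) × (F.ζ × ((Fin m →₀ ℕ) → ℤ)) →
      MvPolynomial (Fin m) ℝ, ∀ ω, B ω → ∃ ω', B ω' ∧
        zxE i₁ J w r (L + s) G₀ (ptr F r ω') = zxE i₁ J w r (L + s) G₀ (ptr F r ω) ∧
        G (zxE i₁ J w r (L + s) G₀ (ptr F r ω)) = Gx (ptr F r ω') := by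
    refine ⟨fun z => if h : ∃ ω, B ω ∧ zxE i₁ J w r (L + s) G₀ (ptr F r ω) = z then
      Gx (ptr F r h.choose) else 0, fun ω hω => ?_⟩
    have hex : ∃ ω', B ω' ∧ zxE i₁ J w r (L + s) G₀ (ptr F r ω') =
        zxE i₁ J w r (L + s) G₀ (ptr F r ω) := ⟨ω, hω, rfl⟩
    refine ⟨hex.choose, hex.choose_spec.1, hex.choose_spec.2, ?_⟩
    simp only
    rw [dif_pos hex]
  refine ⟨_, zxE i₁ J w r (L + s) G₀, zsE i₁ w (L + s) cl H₀ v, fun z => z.1, fun z => z.2.1, cl,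
    G, fun ω hω => ⟨hzz ω hω, hcelx ω, rfl, hcl ω (hBB1 ω hω), ?_⟩⟩
  obtain ⟨ω', hω', hz', hGz⟩ := hG ω hω
  have hff : fco (L + s) Gx (ptr F r ω') = fco (L + s) Gx (ptr F r ω) := by
    have h1 := congrArg (fun z => z.2.2) hz'
    unfold zxE at h1
    rw [hGx]
    exact h1
  have hC1 : (2 : ℝ) * m ≤ 3 + 2 * m + 2 * m ^ 2 := by
    have : (0 : ℝ) ≤ 3 + 2 * m ^ 2 := by positivity
    linarith
  have hreg : RegG (Gx (ptr F r ω')) (fun _ => 0) 1 K (2 * m) := by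
    rw [hGxe ω']
    exact lab_reg F i₁ hw (hG₀ _) ω' (fun b hb => ((hGH ω' (hB1 ω' (hBB1 ω' hω'))).2 b hb).1)
  rw [hGz]
  refine ⟨⟨hreg.deg, fun y hy i => (hreg.slope y hy i).trans hC1⟩, ?_⟩
  -- the sample is on the graph
  have hyu : ∀ j, 0 ≤ rp (2 ^ L) (ppos L (chI i₁)) (trp F P ω) (some j) ∧
      rp (2 ^ L) (ppos L (chI i₁)) (trp F P ω) (some j) ≤ 1 := fun j => base_unit F i₁ L P ω j
  obtain ⟨y, hy⟩ : ∃ y : Fin m → ℝ,
    y = fun j => rp (2 ^ L) (ppos L (chI i₁)) (trp F P ω) (some j) := ⟨_, rfl⟩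
  have hyu' : ∀ j, |y j| ≤ 1 := by
    intro j
    rw [hy, abs_of_nonneg (hyu j).1]
    exact (hyu j).2
  have h1 : |MvPolynomial.eval y (Gx (ptr F r ω)) - MvPolynomial.eval y (Gx (ptr F r ω'))| ≤
      1 / 2 ^ L := by
    rw [← map_sub]
    have h2 := eval_near_unit (K := K) (R := Gx (ptr F r ω) - Gx (ptr F r ω'))
      ((MvPolynomial.totalDegree_sub _ _).trans (max_le (hdGx _) (hdGx _)))
      (t := 1 / 2 ^ (L + s)) (by
        intro α _
        rw [MvPolynomial.coeff_sub]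
        have h3 : ⌊(2 : ℝ) ^ (L + s) * MvPolynomial.coeff α (Gx (ptr F r ω'))⌋ =
            ⌊(2 : ℝ) ^ (L + s) * MvPolynomial.coeff α (Gx (ptr F r ω))⌋ := congrFun hff α
        have h4 := Int.abs_sub_lt_one_of_floor_eq_floor h3
        rw [← mul_sub, abs_mul, abs_of_pos hLs0, abs_sub_comm] at h4
        rw [le_div_iff₀ hLs0]
        linarith) (y := y) hyu'
    refine h2.trans ?_
    rw [← hbx, pow_add, mul_one_div, div_le_div_iff₀ (by positivity) hL0, one_mul]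
    calc (bx.card : ℝ) * 2 ^ L ≤ 2 ^ s * 2 ^ L := mul_le_mul_of_nonneg_right hs hL0.le
      _ = _ := by ring
  have h9 : |rp (2 ^ L) (ppos L (chI i₁)) (trp F P ω) none -
      MvPolynomial.eval y (Gx (ptr F r ω))| ≤ (2 + 2 * m ^ 2) / 2 ^ L := by
    rw [hGxe ω, hy]
    have h5 := hGH ω (hB1 ω (hBB1 ω hω))
    exact lab_dist F i₁ hwL hPJ ω h5.1 (fun b hb => (h5.2 b hb).1)
  have h11 : rp (2 ^ L) (ppos L (chI i₁)) (trp F P ω) none -
      MvPolynomial.eval y (Gx (ptr F r ω')) =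
      (rp (2 ^ L) (ppos L (chI i₁)) (trp F P ω) none - MvPolynomial.eval y (Gx (ptr F r ω))) +
      (MvPolynomial.eval y (Gx (ptr F r ω)) - MvPolynomial.eval y (Gx (ptr F r ω'))) := by ring
  rw [← hy, h11]
  refine (abs_add_le _ _).trans ((add_le_add h9 h1).trans ?_)
  rw [← add_div]
  refine div_le_div_of_nonneg_right ?_ hL0.le
  have : (0 : ℝ) ≤ 2 * m := by positivity
  linarith

end Pool.FLF
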