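import Pool.Agent.H37.S3.FIN
import Pool.Agent.H82.KSP.STF

/-!
# Leaves with labels: decomposition according to the value of a label

`fin_lab` is `fin_thm` (most cubes of a leaf are good) for a law on many leaves; the leaves are the
values of a label which is a function of the line and a function of the point.
-/

set_option autoImplicit false

namespace Pool.KS3

open Finset Real
open Pool.Agent.H49.Ent Pool.Agent.H32.Dense Pool.STK Pool.KAF Pool.KAL

section law

variable {n M a L : ℕ} {C₀ : ℝ} {Ω Λ Ξ Z Y : Type} [Fintype Ω] {p q : Ω → ℝ} {lam : Ω → Λ}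
    {x : Ω → Ξ} {T : Ξ → ℕ} {pos : Ξ → Option (Fin n) → ℕ} {A B : Λ → Option (Fin n) → ℝ}
    {zx : Ξ → Z} {zl : Λ → ℕ → Z} {cz : Z → Option (Fin n) → ℕ}

/-- Another law on the same incidences. -/
lemma Leaf.law (h : Leaf n M C₀ p lam x T pos A B) (hq : IsLaw q) :
    Leaf n M C₀ q lam x T pos A B :=
  ⟨hq, h.T_lt, h.pos_lt, h.near, h.A_le, h.B_le⟩

/-- Another law on the same incidences. -/
lemma StepF.law (h : StepF n a L C₀ p lam x T pos A B zx zl cz) (hq : IsLaw q) :
    StepF n a L C₀ q lam x T pos A B zx zl cz :=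
  ⟨h.leaf.law hq, h.lab, h.cell⟩

/-- A larger constant. -/
lemma StepF.mono (h : StepF n a L C₀ p lam x T pos A B zx zl cz) {C₁ : ℝ} (hC : C₀ ≤ C₁) :
    StepF n a L C₁ p lam x T pos A B zx zl cz :=
  ⟨h.leaf.mono hC, h.lab, h.cell⟩

/-- The law of the fibre. -/
lemma isLaw_fib (hp : IsLaw p) (y : Ω → Y) {β : Y} (hβ : Pool.Agent.H49.Ent.law p y β ≠ 0) :
    IsLaw (cond p y β) := ⟨cond_nonneg hp.nonneg y β, sum_cond p y hβ⟩

/-- The fans are the same in the fibres of a label which is a function of the point. -/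
lemma NCF.fib (hp : IsLaw p) {δ : ℝ} {e : Ξ → ℝ} (h : NCF p lam x B δ e) {y : Ω → Y}
    (hy : Det p x y) {β : Y} (hβ : Pool.Agent.H49.Ent.law p y β ≠ 0) :
    NCF (cond p y β) lam x B δ e := by
  classical
  intro ω hω u hu
  have hp0 := hp.nonneg
  have h1 := (cond_pos_iff hp0 y β ω).mp hω
  have h2 := h ω h1.1 u hu
  have hl : 0 < Pool.Agent.H49.Ent.law p y β :=
    lt_of_le_of_ne (law_nonneg hp0 y β) (Ne.symm hβ)
  have key : ∀ ω', x ω' = x ω → cond p y β ω' = p ω' / Pool.Agent.H49.Ent.law p y β := by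
    intro ω' hx
    unfold Pool.Agent.H49.Ent.cond
    rcases (hp0 ω').eq_or_lt with h0 | h0
    · simp [← h0]
    · rw [if_pos ((hy ω' ω h0 h1.1 hx).trans h1.2)]
  have e1 : Pool.Agent.H49.Ent.law (cond p y β) x (x ω) =
      Pool.Agent.H49.Ent.law p x (x ω) / Pool.Agent.H49.Ent.law p y β := by
    unfold Pool.Agent.H49.Ent.law
    rw [Finset.sum_div]
    refine Finset.sum_congr rfl fun ω' _ => ?_
    by_cases hx : x ω' = x ω
    · rw [if_pos hx, if_pos hx, key ω' hx]
      rfl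
    · rw [if_neg hx, if_neg hx, zero_div]
  rw [e1]
  have e2 : (∑ ω', if x ω' = x ω ∧ |∑ i, u i * B (lam ω') (some i)| ≤ δ then cond p y β ω' else 0) =
      (∑ ω', if x ω' = x ω ∧ |∑ i, u i * B (lam ω') (some i)| ≤ δ then p ω' else 0) /
        Pool.Agent.H49.Ent.law p y β := by
    rw [Finset.sum_div]
    refine Finset.sum_congr rfl fun ω' _ => ?_
    by_cases hx : x ω' = x ω ∧ |∑ i, u i * B (lam ω') (some i)| ≤ δ
    · rw [if_pos hx, if_pos hx, key ω' hx.1]
    · rw [if_neg hx, if_neg hx, zero_div]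
  rw [e2, ← mul_div_assoc]
  exact div_le_div_of_nonneg_right h2 hl.le

end law

/-- Most cubes are good, with labels. -/
def FINLStmt : Prop :=
  ∀ (n D j k₀ : ℕ) (C₀ : ℝ), (j + n).choose n < (D + n + 1).choose (n + 1) → 6 * n * D ≤ j →
    1 ≤ C₀ → ∃ C : ℝ, 0 ≤ C ∧
    ∀ (Ω Λ Ξ Y : Type) [Fintype Ω] (p : Ω → ℝ) (lam : Ω → Λ) (x : Ω → Ξ)
      (T : Ξ → ℕ) (pos : Ξ → Option (Fin n) → ℕ) (A B : Λ → Option (Fin n) → ℝ) (y : Ω → Y)
      (G : Y → (Option (Fin n) → ℕ) → MvPolynomial (Fin n) ℝ) (L u κ γ N : ℕ)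
      (δ ε e₁ e₃ : ℝ) (e : Ξ → ℝ),
      (j + 2) * u ≤ L →
      Leaf n (2 ^ L) C₀ p lam x T pos A B → Det p lam y → Det p x y →
      (∀ ω, 0 < p ω → RegG (G (y ω) (cel (2 ^ (L - u)) pos (x ω)))
        (crn (2 ^ L) (2 ^ (L - u)) (cel (2 ^ (L - u)) pos (x ω))) (1 / 2 ^ u) k₀ C₀) →
      (∀ ω, 0 < p ω → |rp (2 ^ L) pos (x ω) none - MvPolynomial.eval
        (fun i => rp (2 ^ L) pos (x ω) (some i)) (G (y ω) (cel (2 ^ (L - u)) pos (x ω)))| ≤
          C₀ / 2 ^ L) →
      0 < δ → (∀ a, 0 ≤ e a) → Ex p (fun ω => e (x ω)) ≤ ε → NCF p lam x B δ e →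
      n.factorial * C₀ ^ n ≤ δ ^ n * 2 ^ γ → 1 ≤ κ →
      L * Real.log 2 - CH p (fun ω => T (x ω)) lam ≤ e₁ →
      CH p x (fun ω => (bas pos (x ω), y ω)) ≤ e₃ →
      (∑ ω, (open Classical in if Bad (G (y ω) (cel (2 ^ (L - u)) pos (x ω)))
        (crn (2 ^ L) (2 ^ (L - u)) (cel (2 ^ (L - u)) pos (x ω)))
        (1 / 2 ^ u) D (2 ^ (u * (j + 1)) / 2 ^ L) then p ω else 0)) * (u * Real.log 2) ≤
        C * ((N + 1) * (e₁ + 1) + e₃ + (1 - 1 / n) ^ N * L + L / κ + γ + κ + 1 + ε * L)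

/-- The entropy of the base coordinates. -/
lemma H_bas_le {n L : ℕ} {C₀ : ℝ} {Ω Λ Ξ : Type} [Fintype Ω] {p : Ω → ℝ} {lam : Ω → Λ}
    {x : Ω → Ξ} {T : Ξ → ℕ} {pos : Ξ → Option (Fin n) → ℕ} {A B : Λ → Option (Fin n) → ℝ}
    (h : Leaf n (2 ^ L) C₀ p lam x T pos A B) :
    H p x ≤ n * (L * Real.log 2) + CH p x (fun ω => bas pos (x ω)) := by
  classical
  have hp := h.isLaw
  have hp0 := hp.nonneg
  have h1 : H p x ≤ H p (fun ω => bas pos (x ω)) + CH p x (fun ω => bas pos (x ω)) := by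
    have h2 : H p x ≤ H p (fun ω => (x ω, bas pos (x ω))) :=
      H_mono hp0 (fun ω ω' _ _ hh => (Prod.ext_iff.mp hh).1)
    unfold CH
    linarith
  have h3 : H p (fun ω => bas pos (x ω)) ≤ Real.log (((2 ^ L : ℕ) : ℝ) ^ n) := by
    have := H_le_log_card hp0 hp.sum_one (fun ω => bas pos (x ω))
      (Fintype.piFinset fun _ : Fin n => Finset.range (2 ^ L)) (by
        intro ω _
        rw [Fintype.mem_piFinset]
        intro i
        rw [Finset.mem_range]
        exact h.pos_lt ω (some i))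
    refine this.trans (le_of_eq ?_)
    rw [Fintype.card_piFinset]
    simp
  rw [Real.log_pow] at h3
  have h4 : Real.log ((2 ^ L : ℕ) : ℝ) = L * Real.log 2 := by
    push_cast
    rw [Real.log_pow]
  rw [h4] at h3
  linarith

theorem fin_lab : FINLStmt := by
  classical
  intro n D j k₀ C₀ hcho hj hC₀
  obtain ⟨C, hC, hfin⟩ := fin_thm n D j k₀ C₀ hcho hj hC₀
  refine ⟨C, hC, ?_⟩
  intro Ω Λ Ξ Y _ p lam x T pos A B y G L u κ γ N δ ε e₁ e₃ e hju hleaf hly hxy hreg hgr hδ he hex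
    hnc hγ hκ he₁ he₃
  have hp := hleaf.isLaw
  have hp0 := hp.nonneg
  have hlog : 0 ≤ Real.log 2 := Real.log_nonneg (by norm_num)
  have hu0 : 0 ≤ (u : ℝ) * Real.log 2 := by positivity
  -- the good and the bad cubes
  set bad : Ω → Prop := fun ω => Bad (G (y ω) (cel (2 ^ (L - u)) pos (x ω)))
        (crn (2 ^ L) (2 ^ (L - u)) (cel (2 ^ (L - u)) pos (x ω)))
        (1 / 2 ^ u) D (2 ^ (u * (j + 1)) / 2 ^ L) with hbad
  have key : ∀ β ∈ univ.image y, Pool.Agent.H49.Ent.law p y β *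
      (Ex (cond p y β) (fun ω => if bad ω then 1 else 0) * (u * Real.log 2)) ≤
      Pool.Agent.H49.Ent.law p y β * (C * ((N + 1) *
        ((L * Real.log 2 - CH (cond p y β) (fun ω => T (x ω)) lam) + 1) +
        CH (cond p y β) x (fun ω => bas pos (x ω)) + (1 - 1 / n) ^ N * L + L / κ + γ + κ + 1 +
        Ex (cond p y β) (fun ω => e (x ω)) * L)) := by
    intro β _
    rcases eq_or_ne (Pool.Agent.H49.Ent.law p y β) 0 with h0 | h0
    · rw [h0, zero_mul, zero_mul]
    refine mul_le_mul_of_nonneg_left ?_ (law_nonneg hp0 y β)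
    have hq := isLaw_fib hp y h0
    have hqp : ∀ ω, 0 < cond p y β ω → 0 < p ω ∧ y ω = β := fun ω hω =>
      (cond_pos_iff hp0 y β ω).mp hω
    have hL' := hleaf.law hq
    have f1 := hfin Ω Λ Ξ (cond p y β) lam x T pos A B (G β) L u κ γ N δ
      (Ex (cond p y β) (fun ω => e (x ω)))
      (L * Real.log 2 - CH (cond p y β) (fun ω => T (x ω)) lam)
      (CH (cond p y β) x (fun ω => bas pos (x ω))) e hju hL'
      (fun ω hω => by
        have := hreg ω (hqp ω hω).1
        rwa [(hqp ω hω).2] at this)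
      (fun ω hω => by
        have := hgr ω (hqp ω hω).1
        rwa [(hqp ω hω).2] at this)
      hδ he le_rfl (hnc.fib hp hxy h0) hγ hκ le_rfl
      (by
        have h1 : CH (cond p y β) (fun ω => T (x ω)) lam ≤ Real.log ((2 ^ L : ℕ) : ℝ) := by
          have h2 := CH_le_card hq.nonneg hq.sum_one (fun ω => T (x ω)) lam
            (fun _ => Finset.range (2 ^ L)) (by
              intro ω _
              rw [Finset.mem_range]
              exact hleaf.T_lt ω)
          rw [Finset.card_range] at h2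
          rwa [Ex_const hq.sum_one] at h2
        push_cast at h1
        rw [Real.log_pow] at h1
        linarith)
      (CH_nonneg hq.nonneg _ _) (H_bas_le hL')
    have e1 : Ex (cond p y β) (fun ω => if bad ω then 1 else 0) =
        ∑ ω, (if Bad (G β (cel (2 ^ (L - u)) pos (x ω)))
          (crn (2 ^ L) (2 ^ (L - u)) (cel (2 ^ (L - u)) pos (x ω)))
          (1 / 2 ^ u) D (2 ^ (u * (j + 1)) / 2 ^ L) then cond p y β ω else 0) := by
      unfold Ex
      refine Finset.sum_congr rfl fun ω _ => ?_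
      rcases (hq.nonneg ω).eq_or_lt with h1 | h1
      · rw [← h1]
        simp
      · rw [mul_ite, mul_one, mul_zero]
        simp only [hbad, (hqp ω h1).2]
    rw [e1]
    exact f1
  have s1 := Finset.sum_le_sum key
  -- the left side
  have l1 : (∑ β ∈ univ.image y, Pool.Agent.H49.Ent.law p y β *
      (Ex (cond p y β) (fun ω => if bad ω then 1 else 0) * (u * Real.log 2))) =
      (∑ ω, (if bad ω then p ω else 0)) * (u * Real.log 2) := by
    have h1 := Ex_split hp0 (fun ω => if bad ω then (1 : ℝ) else 0) y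
    have h2 : Ex p (fun ω => if bad ω then (1 : ℝ) else 0) = ∑ ω, (if bad ω then p ω else 0) := by
      unfold Ex
      refine Finset.sum_congr rfl fun ω _ => ?_
      rw [mul_ite, mul_one, mul_zero]
    rw [← h2, h1, Finset.sum_mul]
    refine Finset.sum_congr rfl fun β _ => ?_
    ring
  rw [l1] at s1
  refine s1.trans ?_
  -- the right side
  have a0 : ∑ β ∈ univ.image y, Pool.Agent.H49.Ent.law p y β = 1 := sum_law_one hp.sum_one y
  have a1 : ∑ β ∈ univ.image y, Pool.Agent.H49.Ent.law p y β *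
      CH (cond p y β) (fun ω => T (x ω)) lam = CH p (fun ω => T (x ω)) lam := by
    rw [← CH_split hp0]
    refine CH_congr hp0 ?_ ?_ ?_ ?_
    · intro ω ω' _ _ hh
      exact (Prod.ext_iff.mp hh).1
    · intro ω ω' _ _ hh
      exact (Prod.ext_iff.mp hh).1
    · intro ω ω' _ _ hh
      exact (Prod.ext_iff.mp hh).1
    · intro ω ω' h1 h2 hh
      exact Prod.ext hh (hly ω ω' h1 h2 hh)
  have a2 : ∑ β ∈ univ.image y, Pool.Agent.H49.Ent.law p y β *
      CH (cond p y β) x (fun ω => bas pos (x ω)) = CH p x (fun ω => (bas pos (x ω), y ω)) :=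
    (CH_split hp0 x (fun ω => bas pos (x ω)) y).symm
  have a3 : ∑ β ∈ univ.image y, Pool.Agent.H49.Ent.law p y β *
      Ex (cond p y β) (fun ω => e (x ω)) = Ex p (fun ω => e (x ω)) :=
    (Ex_split hp0 (fun ω => e (x ω)) y).symm
  have r1 : (∑ β ∈ univ.image y, Pool.Agent.H49.Ent.law p y β * (C * ((N + 1) *
        ((L * Real.log 2 - CH (cond p y β) (fun ω => T (x ω)) lam) + 1) +
        CH (cond p y β) x (fun ω => bas pos (x ω)) + (1 - 1 / n) ^ N * L + L / κ + γ + κ + 1 +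
        Ex (cond p y β) (fun ω => e (x ω)) * L))) =
      C * ((N + 1) * ((L * Real.log 2 - CH p (fun ω => T (x ω)) lam) + 1) +
        CH p x (fun ω => (bas pos (x ω), y ω)) + (1 - 1 / n) ^ N * L + L / κ + γ + κ + 1 +
        Ex p (fun ω => e (x ω)) * L) := by
    have g1 : (∑ β ∈ univ.image y, Pool.Agent.H49.Ent.law p y β * (C * ((N + 1) *
        ((L * Real.log 2 - CH (cond p y β) (fun ω => T (x ω)) lam) + 1) +
        CH (cond p y β) x (fun ω => bas pos (x ω)) + (1 - 1 / n) ^ N * L + L / κ + γ + κ + 1 +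
        Ex (cond p y β) (fun ω => e (x ω)) * L))) =
        C * (((N + 1) * (L * Real.log 2 + 1) + (1 - 1 / n) ^ N * L + L / κ + γ + κ + 1) *
          (∑ β ∈ univ.image y, Pool.Agent.H49.Ent.law p y β) -
          (N + 1) * (∑ β ∈ univ.image y, Pool.Agent.H49.Ent.law p y β *
            CH (cond p y β) (fun ω => T (x ω)) lam) +
          (∑ β ∈ univ.image y, Pool.Agent.H49.Ent.law p y β *
            CH (cond p y β) x (fun ω => bas pos (x ω))) +
          (∑ β ∈ univ.image y, Pool.Agent.H49.Ent.law p y β *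
            Ex (cond p y β) (fun ω => e (x ω))) * L) := by
      rw [Finset.mul_sum, Finset.mul_sum, Finset.sum_mul, ← Finset.sum_sub_distrib,
        ← Finset.sum_add_distrib, ← Finset.sum_add_distrib, Finset.mul_sum]
      refine Finset.sum_congr rfl fun β _ => ?_
      ring
    rw [g1, a0, a1, a2, a3]
    ring
  rw [r1]
  refine mul_le_mul_of_nonneg_left ?_ hC
  have hN : (0 : ℝ) ≤ N + 1 := by positivity
  have t1 : ((N : ℝ) + 1) * ((L * Real.log 2 - CH p (fun ω => T (x ω)) lam) + 1) ≤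
      (N + 1) * (e₁ + 1) := mul_le_mul_of_nonneg_left (by linarith) hN
  have t2 : Ex p (fun ω => e (x ω)) * L ≤ ε * L :=
    mul_le_mul_of_nonneg_right hex (Nat.cast_nonneg L)
  linarith

end Pool.KS3
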