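import Pool.Agent.H99.FLF.Step
import Pool.Agent.H99.FLF.FIB

/-!
# Restriction of a family to an event

The sample space of the restriction is the event, so that statements which hold on the event hold
for all samples.
-/

set_option autoImplicit false

namespace Pool.FLF

open Finset Real
open Pool.Agent.H49.Ent Pool.Agent.H32.Dense Pool.STK Pool.KA Pool.KSAT Pool.K2S Pool.KS3

variable {m J n : ℕ}

section law

variable {Ω S T : Type} [Fintype Ω]

open Classical in
/-- The conditional law on the event. -/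
noncomputable def sp (p : Ω → ℝ) (A : Ω → Prop) (ω : {ω // A ω}) : ℝ := p ω.1 / Pe p A

open Classical in
/-- The conditional law on the event, as a law on the whole space. -/
lemma sp_marg {p : Ω → ℝ} (A : Ω → Prop) :
    Marg (sp p A) (Pool.Agent.H49.Ent.cond p A True) (fun ω : {ω // A ω} => ω.1) := by
  intro a
  unfold Pool.Agent.H49.Ent.cond sp
  by_cases ha : A a
  · rw [if_pos (by simpa using ha)]
    unfold law
    rw [Finset.sum_eq_single (⟨a, ha⟩ : {ω // A ω})]
    · rw [if_pos rfl]
      rfl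
    · intro b _ hb
      rw [if_neg]
      intro h
      exact hb (Subtype.ext h)
    · intro h
      exact absurd (Finset.mem_univ _) h
  · rw [if_neg (by simpa using ha)]
    refine Finset.sum_eq_zero fun b _ => ?_
    rw [if_neg]
    intro h
    have h1 := b.2
    have h2 : b.1 = a := h
    rw [h2] at h1
    exact ha h1

open Classical in
lemma sp_isLaw {p : Ω → ℝ} (hp : IsLaw p) {A : Ω → Prop} (hA : 0 < Pe p A) : IsLaw (sp p A) := by
  refine ⟨fun ω => div_nonneg (hp.nonneg _) hA.le, ?_⟩
  have h1 := (sp_marg (p := p) A).sum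
  rw [h1]
  exact (isLaw_cond hp hA).sum_one

end law

open Classical in
/-- **The restriction of a family to an event.** -/
noncomputable def Fam.sub (F : Fam m J) (A : F.Ω → Prop) (hA : 0 < Pe F.p A) : Fam m J where
  Ω := {ω // A ω}
  ζ := F.ζ
  fin := inferInstance
  p := sp F.p A
  u := fun ω => F.u ω.1
  d := fun ω => F.d ω.1
  T := fun ω => F.T ω.1
  Z := fun ω => F.Z ω.1
  isLaw := sp_isLaw F.isLaw hA
  dir := fun ω => F.dir ω.1
  tim := fun ω => F.tim ω.1

section

variable {F : Fam m J} {A : F.Ω → Prop} {hA : 0 < Pe F.p A} {S T : Type}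

lemma sub_marg : Marg (Fam.sub F A hA).p (Pool.Agent.H49.Ent.cond F.p A True)
    (fun ω : {ω // A ω} => ω.1) := sp_marg A

/-- Entropies of the restriction. -/
lemma sub_CH (X : F.Ω → S) (Y : F.Ω → T) :
    CH (Fam.sub F A hA).p (fun ω : {ω // A ω} => X ω.1) (fun ω => Y ω.1) =
      CH (Pool.Agent.H49.Ent.cond F.p A True) X Y := sub_marg.CH X Y

lemma sub_H (X : F.Ω → S) : H (Fam.sub F A hA).p (fun ω : {ω // A ω} => X ω.1) =
      H (Pool.Agent.H49.Ent.cond F.p A True) X := sub_marg.H X

lemma sub_Ex (f : F.Ω → ℝ) : Ex (Fam.sub F A hA).p (fun ω : {ω // A ω} => f ω.1) =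
      Ex (Pool.Agent.H49.Ent.cond F.p A True) f := (sub_marg.ex f)

lemma sub_pt (ω : {ω // A ω}) : Fam.pt (Fam.sub F A hA) ω = Fam.pt F ω.1 := rfl

lemma sub_slam (w : ℕ) (ω : {ω // A ω}) : slam (Fam.sub F A hA) w ω = slam F w ω.1 := rfl

lemma sub_X (w : ℕ) (ω : {ω // A ω}) : (Fam.sub F A hA).X w ω = F.X w ω.1 := rfl

lemma sub_T1 (w : ℕ) (ω : {ω // A ω}) : (Fam.sub F A hA).T1 w ω = F.T1 w ω.1 := rfl

/-- The time deficit of the restriction. -/
lemma sub_Tm {e : ℝ} (h : (F.res A True (isLaw_cond F.isLaw hA)).Tm e) :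
    (Fam.sub F A hA).Tm e := by
  unfold Fam.Tm at h ⊢
  have h1 : CH (Fam.sub F A hA).p (Fam.sub F A hA).T
      (fun ω => ((Fam.sub F A hA).l ω, (Fam.sub F A hA).Z ω)) =
      CH (Pool.Agent.H49.Ent.cond F.p A True) F.T (fun ω => (F.l ω, F.Z ω)) :=
    sub_CH F.T (fun ω => (F.l ω, F.Z ω))
  rw [h1]
  exact h

/-- The time deficit on an event. -/
theorem Tm_of_event {e : ℝ} (he : F.Tm e) (hA : 0 < Pe F.p A) :
    (Fam.sub F A hA).Tm ((e + Real.log 2) / Pe F.p A) := by
  classical
  refine sub_Tm ?_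
  have hp := F.isLaw
  have hp0 := hp.nonneg
  unfold Fam.Tm at he ⊢
  have hlt : law F.p A True = Pe F.p A := rfl
  have h1 : CH F.p F.T (fun ω => (F.l ω, F.Z ω)) ≤ Real.log 2 +
      ∑ b ∈ univ.image A, law F.p A b *
        CH (Pool.Agent.H49.Ent.cond F.p A b) F.T (fun ω => (F.l ω, F.Z ω)) := by
    have a1 := CH_le_add hp0 F.T A (fun ω => (F.l ω, F.Z ω))
    have a2 : CH F.p A (fun ω => (F.l ω, F.Z ω)) ≤ Real.log 2 := by
      have := CH_le_card hp0 hp.sum_one A (fun ω => (F.l ω, F.Z ω))
        (fun _ => ({True, False} : Finset Prop)) (fun ω _ => by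
          by_cases h : A ω
          · simp [h]
          · simp [h])
      refine this.trans ?_
      have h2 : Ex F.p (fun _ : F.Ω => Real.log (({True, False} : Finset Prop).card : ℝ)) =
          Real.log (({True, False} : Finset Prop).card : ℝ) := Ex_const hp.sum_one _
      refine (le_of_eq h2).trans ?_
      refine Real.log_le_log ?_ ?_
      · have : 0 < ({True, False} : Finset Prop).card := Finset.card_pos.2 ⟨True, by simp⟩
        exact_mod_cast this
      · have := Finset.card_le_two (a := True) (b := False)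
        exact_mod_cast this
    have a3 : CH F.p F.T (fun ω => (A ω, (F.l ω, F.Z ω))) =
        CH F.p F.T (fun ω => ((F.l ω, F.Z ω), A ω)) := by
      refine CH_congr hp0 (fun _ _ _ _ h => (Prod.ext_iff.mp h).1)
        (fun _ _ _ _ h => (Prod.ext_iff.mp h).1) ?_ ?_ <;>
      · intro v v' _ _ h
        have := Prod.ext_iff.mp h
        exact Prod.ext this.2 this.1
    rw [a3] at a1
    have a4 := CH_split hp0 F.T (fun ω => (F.l ω, F.Z ω)) A
    rw [a4] at a1
    linarith
  have hmem : True ∈ univ.image A := by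
    by_contra h
    have : Pe F.p A = 0 := by
      rw [Pe_eq]
      refine Finset.sum_eq_zero fun ω _ => ?_
      rw [if_neg]
      intro hω
      exact h (Finset.mem_image.2 ⟨ω, Finset.mem_univ _, eq_true hω⟩)
    rw [this] at hA
    exact lt_irrefl _ hA
  have hbd : ∀ b, law F.p A b * CH (Pool.Agent.H49.Ent.cond F.p A b) F.T
      (fun ω => (F.l ω, F.Z ω)) ≤ law F.p A b * (J * Real.log 2) := by
    intro b
    rcases eq_or_ne (law F.p A b) 0 with h0 | h0
    · rw [h0, zero_mul, zero_mul]
    · refine mul_le_mul_of_nonneg_left ?_ (law_nonneg hp0 A b)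
      have hq : IsLaw (Pool.Agent.H49.Ent.cond F.p A b) :=
        ⟨cond_nonneg hp0 A b, sum_cond F.p A h0⟩
      have h2 := CH_le_card hq.nonneg hq.sum_one F.T (fun ω => (F.l ω, F.Z ω))
        (fun _ => Finset.range (2 ^ J)) (by
          intro ω _
          rw [Finset.mem_range]
          exact F.tim ω)
      rw [Finset.card_range, Ex_const hq.sum_one] at h2
      push_cast at h2
      rwa [Real.log_pow] at h2
  have h2 : ∑ b ∈ univ.image A, law F.p A b *
      CH (Pool.Agent.H49.Ent.cond F.p A b) F.T (fun ω => (F.l ω, F.Z ω)) ≤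
      Pe F.p A * CH (Pool.Agent.H49.Ent.cond F.p A True) F.T (fun ω => (F.l ω, F.Z ω)) +
        (1 - Pe F.p A) * (J * Real.log 2) := by
    rw [← Finset.add_sum_erase _ _ hmem]
    have h3 : ∑ b ∈ (univ.image A).erase True, law F.p A b *
        CH (Pool.Agent.H49.Ent.cond F.p A b) F.T (fun ω => (F.l ω, F.Z ω)) ≤
        ∑ b ∈ (univ.image A).erase True, law F.p A b * (J * Real.log 2) :=
      Finset.sum_le_sum fun b _ => hbd b
    have h4 : ∑ b ∈ (univ.image A).erase True, law F.p A b = 1 - Pe F.p A := by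
      have := sum_law_one hp.sum_one A
      rw [← Finset.add_sum_erase _ _ hmem] at this
      rw [← this, hlt]
      ring
    rw [← Finset.sum_mul, h4] at h3
    rw [hlt]
    linarith
  change (J : ℝ) * Real.log 2 - (e + Real.log 2) / Pe F.p A ≤
    CH (Pool.Agent.H49.Ent.cond F.p A True) F.T (fun ω => (F.l ω, F.Z ω))
  rw [sub_le_iff_le_add, ← sub_le_iff_le_add', le_div_iff₀ hA]
  nlinarith

end

end Pool.FLF
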