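import Pool.Agent.H99.FLF.RES
import Pool.Agent.H78.KST.RSC

/-!
# Pigeonhole, cells, and coefficients of polynomials on the unit cube
-/

set_option autoImplicit false

namespace Pool.FLF

open Finset Real
open Pool.Agent.H49.Ent Pool.Agent.H32.Dense Pool.STK Pool.KA Pool.KSAT Pool.K2S Pool.KS3
open Pool.KAL

variable {m J n : ℕ}

/-- **Pigeonhole.** -/
theorem pigeon {Ω V : Type} [Fintype Ω] {p : Ω → ℝ} (hp : IsLaw p) {A : Ω → Prop} (f : Ω → V)
    (S : Finset V) (hS : S.Nonempty) (h : ∀ ω, A ω → f ω ∈ S) :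
    ∃ v ∈ S, Pe p A / S.card ≤ Pe p (fun ω => A ω ∧ f ω = v) := by
  classical
  have h1 : Pe p A ≤ ∑ v ∈ S, Pe p (fun ω => A ω ∧ f ω = v) := by
    simp_rw [Pe_eq]
    rw [Finset.sum_comm]
    refine Finset.sum_le_sum fun ω _ => ?_
    by_cases hA : A ω
    · rw [if_pos hA]
      have h2 := Finset.single_le_sum (f := fun v => if A ω ∧ f ω = v then p ω else 0)
        (fun v _ => by
          split_ifs
          exacts [hp.nonneg ω, le_rfl]) (h ω hA)
      simpa [hA] using h2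
    · rw [if_neg hA]
      exact Finset.sum_nonneg fun v _ => by
        split_ifs
        exacts [hp.nonneg ω, le_rfl]
  by_contra hcon
  push Not at hcon
  have h2 : ∑ v ∈ S, Pe p (fun ω => A ω ∧ f ω = v) < ∑ _v ∈ S, Pe p A / S.card :=
    Finset.sum_lt_sum_of_nonempty hS hcon
  rw [Finset.sum_const, nsmul_eq_mul] at h2
  have h3 : (S.card : ℝ) ≠ 0 := by
    have := hS.card_pos
    positivity
  rw [mul_div_cancel₀ _ h3] at h2
  linarith

/-- Integer parts of close numbers. -/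
lemma floor_near {a b : ℝ} {c : ℕ} (h : |a - b| ≤ c) : |⌊a⌋ - ⌊b⌋| ≤ (c : ℤ) := by
  rw [abs_le] at h ⊢
  have e1 : ⌊b + c⌋ = ⌊b⌋ + c := Int.floor_add_natCast b c
  have e2 : ⌊a + c⌋ = ⌊a⌋ + c := Int.floor_add_natCast a c
  have h1 : ⌊a⌋ ≤ ⌊b + c⌋ := Int.floor_le_floor (by linarith [h.2])
  have h2 : ⌊b⌋ ≤ ⌊a + c⌋ := Int.floor_le_floor (by linarith [h.1])
  constructor <;> omega

/-- **The cell of the window is a function of the line**, on a large event. -/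
theorem cell_event (F : Fam m J) {w : ℕ} (hw : w ≤ J) (A : F.Ω → Prop) :
    ∃ B : F.Ω → Prop, Sub B A ∧ Pe F.p A / 3 ^ m ≤ Pe F.p B ∧
      ∃ cl : ((Fin m → ℝ) × (Fin m → ℝ)) × F.ζ × ℕ → Fin m → ℤ, ∀ ω, B ω →
        F.X w ω = cl (slam F w ω) := by
  classical
  set cc : ((Fin m → ℝ) × (Fin m → ℝ)) × F.ζ × ℕ → Fin m → ℤ := fun l i =>
    ⌊(2 : ℝ) ^ w * (l.1.1 i + (l.2.2 : ℝ) / 2 ^ w * l.1.2 i)⌋ with hcc
  have hd : ∀ ω i, |F.X w ω i - cc (slam F w ω) i| ≤ 1 := by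
    intro ω i
    have h1 : cc (slam F w ω) i = ⌊(2 : ℝ) ^ w * F.x1 w ω i⌋ := rfl
    have h2 : F.X w ω i = ⌊(2 : ℝ) ^ w * F.x ω i⌋ := rfl
    rw [h1, h2]
    have h3 := x_split F (w := w) (L := J - w) (by omega) ω i
    have h4 := floor_near (a := (2 : ℝ) ^ w * F.x ω i) (b := (2 : ℝ) ^ w * F.x1 w ω i) (c := 1) (by
      rw [h3, add_sub_cancel_left, abs_mul]
      have h5 : |((F.T ω % 2 ^ (J - w) : ℕ) : ℝ) / 2 ^ (J - w)| ≤ 1 := by
        rw [abs_of_nonneg (by positivity), div_le_one (by positivity)]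
        have : F.T ω % 2 ^ (J - w) < 2 ^ (J - w) := Nat.mod_lt _ (Nat.two_pow_pos _)
        exact_mod_cast this.le
      have h6 := F.dir ω i
      calc _ ≤ (1 : ℝ) * 1 := mul_le_mul h5 h6 (abs_nonneg _) zero_le_one
        _ = ((1 : ℕ) : ℝ) := by norm_num)
    exact_mod_cast h4
  set S : Finset (Fin m → ℤ) := Fintype.piFinset fun _ => Finset.Icc (-1 : ℤ) 1 with hS
  have hcard : S.card = 3 ^ m := by
    rw [hS, Fintype.card_piFinset]
    simp
  obtain ⟨v, -, hv⟩ := pigeon F.isLaw (A := A) (fun ω i => F.X w ω i - cc (slam F w ω) i) S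
    (by
      rw [← Finset.card_pos, hcard]
      positivity)
    (by
      intro ω _
      rw [hS, Fintype.mem_piFinset]
      intro i
      rw [Finset.mem_Icc]
      exact abs_le.mp (hd ω i))
  refine ⟨fun ω => A ω ∧ (fun i => F.X w ω i - cc (slam F w ω) i) = v, fun ω hω => hω.1, ?_,
    fun l i => cc l i + v i, fun ω hω => ?_⟩
  · rw [hcard] at hv
    push_cast at hv
    exact hv
  · funext i
    have h1 : F.X w ω i - cc (slam F w ω) i = v i := congrFun hω.2 i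
    linarith

/-- The coefficients are bounded by the supremum on the unit cube. -/
theorem coefSum_le_unit (m K : ℕ) : ∃ C : ℝ, 1 ≤ C ∧ ∀ (R : MvPolynomial (Fin m) ℝ) (M : ℝ),
    R.totalDegree ≤ K → (∀ y ∈ cube (fun _ : Fin m => (0 : ℝ)) 1, |MvPolynomial.eval y R| ≤ M) →
      coefSum R ≤ C * M := by
  obtain ⟨K₁, hK₁, h⟩ := exists_Psi_le_sup (Fin m) K
  refine ⟨2 ^ K * (2 ^ K * K₁), ?_, fun R M hR hM => ?_⟩
  · have h1 : (1 : ℝ) ≤ 2 ^ K := one_le_pow₀ (by norm_num)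
    nlinarith [mul_le_mul h1 hK₁ zero_le_one (by positivity)]
  have h1 := h R (1 / 2) (fun _ => 1 / 2) M hR (by norm_num) (by
    intro y hy
    refine hM y fun i => ?_
    have := abs_le.mp (hy i)
    constructor <;> linarith [this.1, this.2])
  have hΨ0 : 0 ≤ Psi R (1 / 2) (fun _ => 0) := Psi_nonneg _ _ _
  have hΨ1 : 0 ≤ Psi R (1 / 2) (fun _ => 1 / 2) := Psi_nonneg _ _ _
  have h2 := Psi_le_of_dist R (1 / 2) 1 (by norm_num) (by norm_num) (fun _ => 1 / 2)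
    (fun _ => 0) (by
      intro i
      norm_num)
  have h3 := Psi_radius_le R (1 / 2) 2 (by norm_num) (fun _ => 0)
  have e1 : Psi R (1 / 2 * 2) (fun _ => 0) = coefSum R := by
    have e2 : (1 / 2 * 2 : ℝ) = 1 := by norm_num
    rw [e2]
    unfold Psi
    rw [shf_zero_one]
  rw [e1] at h3
  have e3 : (1 + 1 : ℝ) = 2 := by norm_num
  rw [e3] at h2
  have hpow : (2 : ℝ) ^ R.totalDegree ≤ 2 ^ K := pow_le_pow_right₀ (by norm_num) hR
  calc coefSum R ≤ 2 ^ R.totalDegree * Psi R (1 / 2) (fun _ => 0) := h3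
    _ ≤ 2 ^ K * Psi R (1 / 2) (fun _ => 0) := mul_le_mul_of_nonneg_right hpow hΨ0
    _ ≤ 2 ^ K * (2 ^ R.totalDegree * Psi R (1 / 2) (fun _ => 1 / 2)) :=
        mul_le_mul_of_nonneg_left h2 (by positivity)
    _ ≤ 2 ^ K * (2 ^ K * Psi R (1 / 2) (fun _ => 1 / 2)) := by
        refine mul_le_mul_of_nonneg_left (mul_le_mul_of_nonneg_right hpow hΨ1) (by positivity)
    _ ≤ 2 ^ K * (2 ^ K * (K₁ * M)) := by
        refine mul_le_mul_of_nonneg_left (mul_le_mul_of_nonneg_left h1 ?_) ?_ <;> positivity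
    _ = _ := by ring

/-- Polynomials with close coefficients are close on the unit cube. -/
lemma eval_near_unit {K : ℕ} {R : MvPolynomial (Fin m) ℝ} (hR : R.totalDegree ≤ K) {t : ℝ}
    (hc : ∀ α ∈ expBox (Fin m) K, |MvPolynomial.coeff α R| ≤ t) {y : Fin m → ℝ}
    (hy : ∀ i, |y i| ≤ 1) : |MvPolynomial.eval y R| ≤ (expBox (Fin m) K).card * t := by
  refine (abs_eval_le_coefSum R y hy).trans ?_
  rw [coefSum_eq_box R K hR]
  refine (Finset.sum_le_sum hc).trans ?_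
  rw [Finset.sum_const, nsmul_eq_mul]

end Pool.FLF
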