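import Pool.Agent.H99.FLF.EXL

/-!
# Labels which are functions of the point with truncated time

A label which is a function of the point of resolution `r` with the exact time, and of the line
with the window, is on a large event a function of the point of resolution `r` with the time of
resolution `r`: the last digits of the time are fixed at one typical value.
-/

set_option autoImplicit false

namespace Pool.FLF

open Finset Real
open Pool.Agent.H49.Ent Pool.Agent.H32.Dense Pool.STK Pool.KA Pool.KSAT Pool.K2S Pool.KS3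
open Pool.KAL Pool.PB Pool.KST

variable {m J : ℕ}

/-- Jensen's inequality for the logarithm. -/
lemma Ex_log_le {Ω : Type} [Fintype Ω] {q : Ω → ℝ} (hq : IsLaw q) {f : Ω → ℝ}
    (hf : ∀ ω, 0 < f ω) : Ex q (fun ω => Real.log (f ω)) ≤ Real.log (Ex q f) := by
  have h0 : 0 < Ex q f := by
    unfold Ex
    obtain ⟨ω, hω⟩ : ∃ ω, 0 < q ω := by
      by_contra h
      push Not at h
      have : ∑ ω, q ω ≤ 0 := Finset.sum_nonpos fun ω _ => h ω
      rw [hq.sum_one] at this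
      linarith
    exact Finset.sum_pos' (fun ω _ => mul_nonneg (hq.nonneg ω) (hf ω).le)
      ⟨ω, Finset.mem_univ _, mul_pos hω (hf ω)⟩
  have h1 : Ex q (fun ω => Real.log (f ω)) ≤
      Ex q (fun ω => Real.log (Ex q f) + (f ω * (1 / Ex q f) - 1)) := by
    refine Ex_mono hq.nonneg fun ω _ => ?_
    have h2 := Real.log_le_sub_one_of_pos (div_pos (hf ω) h0)
    rw [Real.log_div (hf ω).ne' h0.ne'] at h2
    have h3 : f ω * (1 / Ex q f) = f ω / Ex q f := by ring
    rw [h3]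
    linarith
  refine h1.trans (le_of_eq ?_)
  have h2 : Ex q (fun ω => Real.log (Ex q f) + (f ω * (1 / Ex q f) - 1)) =
      (Real.log (Ex q f) - 1) * ∑ ω, q ω + (∑ ω, q ω * f ω) * (1 / Ex q f) := by
    unfold Ex
    rw [Finset.mul_sum, Finset.sum_mul, ← Finset.sum_add_distrib]
    refine Finset.sum_congr rfl fun ω _ => ?_
    ring
  rw [h2, hq.sum_one]
  have h3 : (∑ ω, q ω * f ω) = Ex q f := rfl
  rw [h3, mul_one_div_cancel h0.ne']
  ring

/-- There is a typical value of the last digits of the time. -/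
lemma exists_residue {Ω C : Type} [Fintype Ω] {q : Ω → ℝ} (hq : IsLaw q) (T : Ω → ℕ) (c : Ω → C)
    (T1 : C → ℕ) {M : ℕ} (hM : 0 < M) (h1 : ∀ ω, T ω / M = T1 (c ω)) {e : ℝ}
    (he : Real.log M - e ≤ CH q T c) : ∃ τ < M, Real.exp (-e) ≤
      Pe q (fun ω => ∃ ω', c ω' = c ω ∧ T ω' = M * T1 (c ω) + τ) := by
  classical
  set S : C → Finset ℕ := fun c' => (univ.filter (fun ω' => c ω' = c')).image T with hS
  have hmem : ∀ ω, T ω ∈ S (c ω) := by
    intro ω
    rw [hS]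
    exact Finset.mem_image_of_mem T (by simp)
  have hpos : ∀ ω, 0 < ((S (c ω)).card : ℝ) := by
    intro ω
    exact_mod_cast Finset.card_pos.2 ⟨_, hmem ω⟩
  have h2 : CH q T c ≤ Ex q (fun ω => Real.log ((S (c ω)).card)) :=
    CH_le_card hq.nonneg hq.sum_one T c S (fun ω _ => hmem ω)
  have h3 := Ex_log_le hq hpos
  by_contra hcon
  push Not at hcon
  have h4 : Ex q (fun ω => ((S (c ω)).card : ℝ)) ≤
      ∑ τ ∈ range M, Pe q (fun ω => ∃ ω', c ω' = c ω ∧ T ω' = M * T1 (c ω) + τ) := by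
    simp_rw [Pe_eq]
    rw [Finset.sum_comm]
    unfold Ex
    refine Finset.sum_le_sum fun ω _ => ?_
    have h5 : ((S (c ω)).card : ℝ) ≤ (((range M).filter fun τ =>
        ∃ ω', c ω' = c ω ∧ T ω' = M * T1 (c ω) + τ).card : ℝ) := by
      have h6 : S (c ω) ⊆ ((range M).filter fun τ =>
        ∃ ω', c ω' = c ω ∧ T ω' = M * T1 (c ω) + τ).image (fun τ => M * T1 (c ω) + τ) := by
        intro t ht
        rw [hS] at ht
        obtain ⟨ω', h7, h8⟩ := Finset.mem_image.1 ht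
        have h9 : c ω' = c ω := by simpa using h7
        have h10 := h1 ω'
        rw [h9, h8] at h10
        have h11 := Nat.div_add_mod t M
        rw [h10] at h11
        refine Finset.mem_image.2 ⟨t % M, ?_, h11⟩
        rw [Finset.mem_filter, Finset.mem_range]
        exact ⟨Nat.mod_lt _ hM, ω', h9, by rw [h8, h11]⟩
      have h7 := (Finset.card_le_card h6).trans Finset.card_image_le
      exact_mod_cast h7
    calc q ω * ((S (c ω)).card : ℝ) ≤ q ω * (((range M).filter fun τ =>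
        ∃ ω', c ω' = c ω ∧ T ω' = M * T1 (c ω) + τ).card : ℝ) :=
          mul_le_mul_of_nonneg_left h5 (hq.nonneg ω)
      _ = ∑ τ ∈ range M, if ∃ ω', c ω' = c ω ∧ T ω' = M * T1 (c ω) + τ then q ω else 0 := by
        rw [← Finset.sum_filter (s := range M)
          (p := fun τ => ∃ ω', c ω' = c ω ∧ T ω' = M * T1 (c ω) + τ) (f := fun _ => q ω),
          Finset.sum_const, nsmul_eq_mul, mul_comm]
      _ ≤ _ := le_of_eq (Finset.sum_congr rfl fun τ _ => by split_ifs <;> rfl)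
  have h5 : ∑ τ ∈ range M, Pe q (fun ω => ∃ ω', c ω' = c ω ∧ T ω' = M * T1 (c ω) + τ) <
      ∑ _τ ∈ range M, Real.exp (-e) :=
    Finset.sum_lt_sum_of_nonempty ⟨0, Finset.mem_range.2 hM⟩
      fun τ hτ => hcon τ (Finset.mem_range.1 hτ)
  rw [Finset.sum_const, Finset.card_range, nsmul_eq_mul] at h5
  have hMr : (0 : ℝ) < M := by exact_mod_cast hM
  have h0 : 0 < Ex q (fun ω => ((S (c ω)).card : ℝ)) := by
    unfold Ex
    obtain ⟨ω, hω⟩ : ∃ ω, 0 < q ω := by
      by_contra h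
      push Not at h
      have : ∑ ω, q ω ≤ 0 := Finset.sum_nonpos fun ω _ => h ω
      rw [hq.sum_one] at this
      linarith
    exact Finset.sum_pos' (fun ω _ => mul_nonneg (hq.nonneg ω) (hpos ω).le)
      ⟨ω, Finset.mem_univ _, mul_pos hω (hpos ω)⟩
  have h6 : Real.log (Ex q (fun ω => ((S (c ω)).card : ℝ))) < Real.log (M * Real.exp (-e)) :=
    Real.log_lt_log h0 (h4.trans_lt h5)
  rw [Real.log_mul hMr.ne' (Real.exp_pos _).ne', Real.log_exp] at h6
  linarith

/-- The positions of a line at nearby times. -/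
lemma X_near (F : Fam m J) {r : ℕ} (hr : r ≤ J) {ω ω' : F.Ω} (hl : F.l ω = F.l ω')
    (ht : F.T1 r ω = F.T1 r ω') (i : Fin m) : |F.X r ω i - F.X r ω' i| ≤ 1 := by
  have hr0 : (0 : ℝ) < 2 ^ r := by positivity
  have hd : F.d ω = F.d ω' := congrArg Prod.snd hl
  have hu : F.u ω = F.u ω' := congrArg Prod.fst hl
  have h4 := floor_near (a := (2 : ℝ) ^ r * F.x ω i) (b := (2 : ℝ) ^ r * F.x ω' i) (c := 1) (by
    have h1 := T1_real F hr ω
    have h2 := T1_real F hr ω'
    rw [ht] at h1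
    have e1 : (2 : ℝ) ^ r * F.x ω i - 2 ^ r * F.x ω' i =
        (2 ^ r * F.t ω - 2 ^ r * F.t ω') * F.d ω' i := by
      unfold Fam.x
      rw [hu, hd]
      ring
    rw [e1, abs_mul]
    have h5 : |(2 : ℝ) ^ r * F.t ω - 2 ^ r * F.t ω'| ≤ 1 := by
      rw [abs_le]
      constructor <;> linarith [h1.1, h1.2, h2.1, h2.2]
    have h6 := F.dir ω' i
    calc _ ≤ (1 : ℝ) * 1 := mul_le_mul h5 h6 (abs_nonneg _) zero_le_one
      _ = ((1 : ℕ) : ℝ) := by norm_num)
  have e1 : F.X r ω i = ⌊(2 : ℝ) ^ r * F.x ω i⌋ := rfl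
  have e2 : F.X r ω' i = ⌊(2 : ℝ) ^ r * F.x ω' i⌋ := rfl
  rw [e1, e2]
  exact_mod_cast h4

open Classical in
/-- Events of the restricted family. -/
lemma sub_Pe {F : Fam m J} {A : F.Ω → Prop} (hA : 0 < Pe F.p A) (E : {ω // A ω} → Prop) :
    Pe F.p (fun ω => ∃ h : A ω, E ⟨ω, h⟩) = Pe F.p A * Pe (sp F.p A) E := by
  rw [Pe_eq (p := F.p) (fun ω => ∃ h : A ω, E ⟨ω, h⟩), Pe_eq (p := sp F.p A) E, Finset.mul_sum]
  have h2 : ∀ ω : {ω // A ω}, Pe F.p A * (if E ω then sp F.p A ω else 0) =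
      if E ω then F.p ω.1 else 0 := by
    intro ω
    split_ifs
    · have h3 : sp F.p A ω = F.p ω.1 / Pe F.p A := rfl
      rw [h3, mul_div_cancel₀ _ hA.ne']
    · rw [mul_zero]
  have e2 : (∑ ω : {ω // A ω}, Pe F.p A * (if E ω then sp F.p A ω else 0)) =
      ∑ ω : {ω // A ω}, if E ω then F.p ω.1 else 0 := Finset.sum_congr rfl fun ω _ => h2 ω
  rw [e2]
  have e3 : (∑ ω : {ω // A ω}, if E ω then F.p ω.1 else 0) =
      ∑ ω : {ω // A ω}, (fun ω' : F.Ω => if ∃ h : A ω', E ⟨ω', h⟩ then F.p ω' else 0) ω.1 := by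
    refine Finset.sum_congr rfl fun ω _ => ?_
    by_cases h : E ω
    · have h' : ∃ h : A ω.1, E ⟨ω.1, h⟩ := ⟨ω.2, h⟩
      simp only [if_pos h, if_pos h']
    · have h' : ¬ ∃ h : A ω.1, E ⟨ω.1, h⟩ := fun ⟨_, h'⟩ => h h'
      simp only [if_neg h, if_neg h']
  rw [e3, ← Finset.sum_subtype (univ.filter A) (by simp)
    (fun ω' : F.Ω => if ∃ h : A ω', E ⟨ω', h⟩ then F.p ω' else 0), Finset.sum_filter]
  refine Finset.sum_congr rfl fun ω _ => ?_
  by_cases h : A ω
  · rw [if_pos h]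
    split_ifs <;> rfl
  · rw [if_neg h, if_neg (fun h' => h h'.1)]

/-- **Truncation of the time in a label.** -/
theorem trunc_time (F : Fam m J) {r w : ℕ} (hr : r ≤ J) (hw : w ≤ r) {B : F.Ω → Prop}
    (hB : 0 < Pe F.p B) {e : ℝ} (hT : (Fam.sub F B hB).Tm e) {Z : Type}
    (zx : (Fin m → ℤ) × (ℕ × F.ζ) → Z)
    (zs : ((Fin m → ℝ) × (Fin m → ℝ)) × F.ζ × ℕ → Z)
    (hz : ∀ ω, B ω → zx (ptr F r ω) = zs (slam F w ω)) :
    ∃ (B' : F.Ω → Prop) (zt : (Fin m → ℤ) × (ℕ × F.ζ) → Z), Sub B' B ∧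
      Real.exp (-e) / 3 ^ m * Pe F.p B ≤ Pe F.p B' ∧
      ∀ ω, B' ω → zt (trp F r ω) = zs (slam F w ω) := by
  classical
  have hq : IsLaw (Fam.sub F B hB).p := (Fam.sub F B hB).isLaw
  have hq0 := hq.nonneg
  set G := Fam.sub F B hB with hG
  -- the last digits
  set c : G.Ω → (((Fin m → ℝ) × (Fin m → ℝ)) × F.ζ) × ℕ := fun ω => ((G.l ω, G.Z ω), G.T1 r ω)
    with hc
  have hMpos : 0 < 2 ^ (J - r) := Nat.two_pow_pos _
  have hCH : Real.log ((2 ^ (J - r) : ℕ) : ℝ) - e ≤ CH G.p G.T c := by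
    unfold Fam.Tm at hT
    have h1 := CH_le_add hq0 G.T (G.T1 r) (fun ω => (G.l ω, G.Z ω))
    have h2 : CH G.p (G.T1 r) (fun ω => (G.l ω, G.Z ω)) ≤ r * Real.log 2 := by
      have := CH_le_card hq0 hq.sum_one (G.T1 r) (fun ω => (G.l ω, G.Z ω))
        (fun _ => Finset.range (2 ^ r)) (fun ω _ => by
          rw [Finset.mem_range]
          exact Pool.KA.Win.T1_lt G r hr ω)
      rw [Finset.card_range, Ex_const hq.sum_one] at this
      push_cast at this
      rwa [Real.log_pow] at this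
    have h3 : CH G.p G.T (fun ω => (G.T1 r ω, (G.l ω, G.Z ω))) = CH G.p G.T c := by
      refine CH_congr hq0 (fun _ _ _ _ h => (Prod.ext_iff.mp h).1)
        (fun _ _ _ _ h => (Prod.ext_iff.mp h).1) ?_ ?_ <;>
      · intro v v' _ _ h
        have := Prod.ext_iff.mp h
        exact Prod.ext this.2 this.1
    rw [h3] at h1
    have h4 : Real.log ((2 ^ (J - r) : ℕ) : ℝ) = J * Real.log 2 - r * Real.log 2 := by
      push_cast
      rw [Real.log_pow, Nat.cast_sub hr]
      ring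
    rw [h4]
    linarith
  obtain ⟨τ, hτ, hPτ⟩ := exists_residue hq G.T c (fun y => y.2) hMpos (fun ω => rfl) hCH
  -- the representative
  obtain ⟨s, hs⟩ : ∃ s : G.Ω → G.Ω, ∀ ω, (∃ ω', c ω' = c ω ∧
      G.T ω' = 2 ^ (J - r) * (c ω).2 + τ) →
      c (s ω) = c ω ∧ G.T (s ω) = 2 ^ (J - r) * (c ω).2 + τ := by
    refine ⟨fun ω => if h : ∃ ω', c ω' = c ω ∧ G.T ω' = 2 ^ (J - r) * (c ω).2 + τ then h.choose
      else ω, fun ω h => ?_⟩
    simp only
    rw [dif_pos h]
    exact h.choose_spec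
  set S : Finset (Fin m → ℤ) := Fintype.piFinset fun _ => Finset.Icc (-1 : ℤ) 1 with hS
  have hcard : S.card = 3 ^ m := by
    rw [hS, Fintype.card_piFinset]
    simp
  obtain ⟨v, -, hv⟩ := pigeon hq
    (A := fun ω => ∃ ω', c ω' = c ω ∧ G.T ω' = 2 ^ (J - r) * (c ω).2 + τ)
    (fun ω i => G.X r (s ω) i - G.X r ω i) S
    (by
      rw [← Finset.card_pos, hcard]
      positivity)
    (by
      intro ω hω
      obtain ⟨h1, -⟩ := hs ω hω
      rw [hS, Fintype.mem_piFinset]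
      intro i
      rw [Finset.mem_Icc]
      have h2 : G.l (s ω) = G.l ω := congrArg (fun y => y.1.1) h1
      have h3 : G.T1 r (s ω) = G.T1 r ω := congrArg (fun y => y.2) h1
      exact abs_le.mp (X_near G hr h2 h3 i))
  refine ⟨fun ω => ∃ h : B ω, (∃ ω', c ω' = c ⟨ω, h⟩ ∧
      G.T ω' = 2 ^ (J - r) * (c ⟨ω, h⟩).2 + τ) ∧
      (fun i => G.X r (s ⟨ω, h⟩) i - G.X r ⟨ω, h⟩ i) = v,
    fun ξ => zx (fun i => ξ.1 i + v i, (2 ^ (J - r) * ξ.2.1 + τ, ξ.2.2)),
    fun ω hω => hω.1, ?_, ?_⟩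
  · -- the probability
    rw [hcard] at hv
    have h1 := sub_Pe hB (fun ω : {ω // B ω} => (∃ ω', c ω' = c ω ∧
        G.T ω' = 2 ^ (J - r) * (c ω).2 + τ) ∧
        (fun i => G.X r (s ω) i - G.X r ω i) = v)
    refine le_trans ?_ (le_of_eq h1.symm)
    rw [mul_comm]
    refine mul_le_mul_of_nonneg_left ?_ hB.le
    refine le_trans ?_ hv
    push_cast
    exact div_le_div_of_nonneg_right hPτ (by positivity)
  · rintro ω ⟨hω, h1, h2⟩
    obtain ⟨h3, h4⟩ := hs ⟨ω, hω⟩ h1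
    obtain ⟨⟨ω', hω'⟩, hs'⟩ : ∃ y, y = s ⟨ω, hω⟩ := ⟨_, rfl⟩
    rw [← hs'] at h2 h3 h4
    have h5 : slam F w ω' = slam F w ω := by
      have a1 : F.l ω' = F.l ω := congrArg (fun y => y.1.1) h3
      have a2 : F.Z ω' = F.Z ω := congrArg (fun y => y.1.2) h3
      have a3 : F.T1 r ω' = F.T1 r ω := congrArg (fun y => y.2) h3
      have a4 : F.T1 w ω' = F.T1 w ω := by
        have b1 := T1_div F (w := w) (K := r - w) (by omega) ω
        have b2 := T1_div F (w := w) (K := r - w) (by omega) ω'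
        rw [show w + (r - w) = r by omega] at b1 b2
        rw [b1, b2, a3]
      exact Prod.ext a1 (Prod.ext a2 a4)
    rw [← h5, ← hz ω' hω']
    refine congrArg zx (Prod.ext ?_ (Prod.ext ?_ ?_))
    · funext i
      have := congrFun h2 i
      change F.X r ω' i - F.X r ω i = v i at this
      change F.X r ω i + v i = F.X r ω' i
      omega
    · change 2 ^ (J - r) * F.T1 r ω + τ = F.T ω'
      exact h4.symm
    · exact (congrArg (fun y => y.1.2) h3).symm

end Pool.FLF
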