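import Pool.Agent.H99.FLF.TRU

/-!
# Nonconcentration of the base velocities from spread fans and the chart
-/

set_option autoImplicit false

namespace Pool.FLF

open Finset Real
open Pool.Agent.H49.Ent Pool.Agent.H32.Dense Pool.STK Pool.KA Pool.KSAT Pool.K2S Pool.KS3
open Pool.KAL Pool.PB Pool.KST

variable {m J : ℕ}

/-- Vectors in a slab of the base which satisfy the equation of the chart are near a plane of
codimension two. -/
lemma plane_of_slab {m : ℕ} (i₁ : Fin m) (u : Fin m → ℝ) (n : ℝ) (s : Fin m → ℝ) {δ η : ℝ}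
    (hδ : δ < 1 / 2) (hη : 0 ≤ η) (hu : ∃ i, 1 ≤ |u i|) (hs : s i₁ = 0) (hs1 : ∀ j, |s j| ≤ 1) :
    ∃ b : (Fin m → ℝ) × (Fin (m - 2) → Fin m → ℝ), ∀ D : Fin m → ℝ, (∀ i, |D i| ≤ 1) →
      |∑ i, u i * (Function.update D i₁ 1) i| ≤ δ → |D i₁ - n - ∑ j, s j * D j| ≤ η →
      ∃ c : Fin (m - 2) → ℝ, ∀ i, |D i - b.1 i - ∑ l, c l * b.2 l i| ≤ η + 2 * m * δ := by
  classical
  have hm : 0 < m := Fin.pos i₁
  have hmr : (1 : ℝ) ≤ m := by exact_mod_cast hm
  -- the sum in the slab
  have hsum : ∀ D : Fin m → ℝ, ∑ i, u i * (Function.update D i₁ 1) i =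
      u i₁ + ∑ j ∈ univ.erase i₁, u j * D j := by
    intro D
    rw [← Finset.add_sum_erase _ _ (Finset.mem_univ i₁), Function.update_self, mul_one]
    congr 1
    refine Finset.sum_congr rfl fun j hj => ?_
    rw [Function.update_of_ne (Finset.ne_of_mem_erase hj)]
  by_cases h : ∃ j₀, j₀ ≠ i₁ ∧ 1 / (2 * m) ≤ |u j₀|
  · obtain ⟨j₀, hj₀, hj₀u⟩ := h
    have hu0 : 0 < |u j₀| := lt_of_lt_of_le (by positivity) hj₀u
    have hune : u j₀ ≠ 0 := abs_pos.mp hu0
    -- the other coordinates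
    obtain ⟨e⟩ : Nonempty (Fin (m - 2) ≃ {j : Fin m // j ≠ i₁ ∧ j ≠ j₀}) := by
      refine Fintype.card_eq.mp ?_
      rw [Fintype.card_fin, Fintype.card_subtype]
      have e1 : (univ.filter fun j : Fin m => j ≠ i₁ ∧ j ≠ j₀) = (univ.erase i₁).erase j₀ := by
        ext j
        simp only [Finset.mem_filter, Finset.mem_univ, true_and, Finset.mem_erase]
        tauto
      rw [e1, Finset.card_erase_of_mem (Finset.mem_erase.mpr ⟨hj₀, Finset.mem_univ _⟩),
        Finset.card_erase_of_mem (Finset.mem_univ _), Finset.card_univ, Fintype.card_fin]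
      omega
    set O : Finset (Fin m) := (univ.erase i₁).erase j₀ with hO
    have hOmem : ∀ j, j ∈ O ↔ j ≠ i₁ ∧ j ≠ j₀ := by
      intro j
      rw [hO, Finset.mem_erase, Finset.mem_erase]
      simp only [Finset.mem_univ, and_true]
      tauto
    have hconv : ∀ f : Fin m → ℝ, ∑ l, f (e l).1 = ∑ j ∈ O, f j := by
      intro f
      rw [Equiv.sum_comp e (fun j : {j : Fin m // j ≠ i₁ ∧ j ≠ j₀} => f j.1)]
      exact (Finset.sum_subtype O hOmem f).symm
    refine ⟨(fun i => if i = i₁ then n + s j₀ * (-u i₁ / u j₀) else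
      if i = j₀ then -u i₁ / u j₀ else 0, fun l i => if i = i₁ then s (e l).1 + s j₀ *
        (-u (e l).1 / u j₀) else if i = j₀ then -u (e l).1 / u j₀ else
        if i = (e l).1 then 1 else 0), ?_⟩
    intro D hD h1 h2
    refine ⟨fun l => D (e l).1, fun i => ?_⟩
    simp only
    have hδ0 : 0 ≤ δ := (abs_nonneg _).trans h1
    have hsplit : ∀ f : Fin m → ℝ, ∑ j ∈ univ.erase i₁, f j = f j₀ + ∑ j ∈ O, f j := by
      intro f
      rw [hO, Finset.add_sum_erase _ _ (Finset.mem_erase.mpr ⟨hj₀, Finset.mem_univ _⟩)]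
    -- the slab
    have hA : |D j₀ - (-u i₁ / u j₀) - ∑ j ∈ O, D j * (-u j / u j₀)| ≤ 2 * m * δ := by
      have e1 : D j₀ - (-u i₁ / u j₀) - ∑ j ∈ O, D j * (-u j / u j₀) =
          (∑ i, u i * (Function.update D i₁ 1) i) / u j₀ := by
        rw [hsum, hsplit, eq_div_iff hune, sub_mul, Finset.sum_mul]
        have e2 : ∑ j ∈ O, D j * (-u j / u j₀) * u j₀ = -∑ j ∈ O, u j * D j := by
          rw [← Finset.sum_neg_distrib]
          refine Finset.sum_congr rfl fun j _ => ?_
          field_simp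
        rw [e2]
        field_simp
        ring
      rw [e1, abs_div, div_le_iff₀ hu0]
      have h3 : 1 ≤ 2 * m * |u j₀| := by
        have : 1 / (2 * (m : ℝ)) * (2 * m) ≤ |u j₀| * (2 * m) :=
          mul_le_mul_of_nonneg_right hj₀u (by positivity)
        rw [one_div_mul_cancel (by positivity)] at this
        linarith
      calc _ ≤ δ := h1
        _ = 1 * δ := (one_mul δ).symm
        _ ≤ 2 * m * |u j₀| * δ := mul_le_mul_of_nonneg_right h3 hδ0
        _ = _ := by ring
    have hmδ : 0 ≤ 2 * m * δ := by positivity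
    by_cases hi : i = i₁
    · simp only [if_pos hi]
      rw [hconv (fun j => D j * (s j + s j₀ * (-u j / u j₀)))]
      have e1 : ∑ j ∈ O, D j * (s j + s j₀ * (-u j / u j₀)) =
          (∑ j ∈ O, s j * D j) + s j₀ * ∑ j ∈ O, D j * (-u j / u j₀) := by
        rw [Finset.mul_sum, ← Finset.sum_add_distrib]
        refine Finset.sum_congr rfl fun j _ => ?_
        ring
      have e2 : ∑ j, s j * D j = s j₀ * D j₀ + ∑ j ∈ O, s j * D j := by
        rw [← Finset.add_sum_erase _ _ (Finset.mem_univ i₁), hs, zero_mul, zero_add, hsplit]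
      have e3 : D i - (n + s j₀ * (-u i₁ / u j₀)) -
          ((∑ j ∈ O, s j * D j) + s j₀ * ∑ j ∈ O, D j * (-u j / u j₀)) =
          (D i₁ - n - ∑ j, s j * D j) +
          s j₀ * (D j₀ - (-u i₁ / u j₀) - ∑ j ∈ O, D j * (-u j / u j₀)) := by
        rw [e2, hi]
        ring
      rw [e1, e3]
      refine (abs_add_le _ _).trans (add_le_add h2 ?_)
      rw [abs_mul]
      calc _ ≤ 1 * (2 * m * δ) := mul_le_mul (hs1 j₀) hA (abs_nonneg _) zero_le_one
        _ = _ := one_mul _
    · by_cases hi2 : i = j₀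
      · simp only [if_neg hi, if_pos hi2]
        rw [hconv (fun j => D j * (-u j / u j₀)), hi2]
        linarith
      · simp only [if_neg hi, if_neg hi2]
        rw [hconv (fun j => D j * (if i = j then 1 else 0))]
        have e1 : ∑ j ∈ O, D j * (if i = j then (1 : ℝ) else 0) = D i := by
          rw [Finset.sum_eq_single i]
          · simp
          · intro j _ hj
            rw [if_neg (fun h => hj h.symm), mul_zero]
          · intro hiO
            exact absurd ((hOmem i).mpr ⟨hi, hi2⟩) hiO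
        rw [e1]
        simp only [sub_zero, sub_self, abs_zero]
        linarith
  · push Not at h
    refine ⟨(fun _ => 0, fun _ _ => 0), fun D hD h1 _ => ?_⟩
    exfalso
    obtain ⟨i, hi⟩ := hu
    have hii : i = i₁ := by
      by_contra hne
      have h2 := h i hne
      have h3 : 1 / (2 * (m : ℝ)) ≤ 1 / 2 := by
        rw [div_le_div_iff₀ (by positivity) (by positivity)]
        linarith
      linarith
    rw [hii] at hi
    rw [hsum] at h1
    have h2 : |∑ j ∈ univ.erase i₁, u j * D j| ≤ 1 / 2 := by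
      refine (Finset.abs_sum_le_sum_abs _ _).trans ?_
      calc ∑ j ∈ univ.erase i₁, |u j * D j| ≤ ∑ _j ∈ univ.erase i₁, 1 / (2 * (m : ℝ)) := by
            refine Finset.sum_le_sum fun j hj => ?_
            rw [abs_mul]
            have h3 := (h j (Finset.ne_of_mem_erase hj)).le
            calc |u j| * |D j| ≤ 1 / (2 * m) * 1 :=
                  mul_le_mul h3 (hD j) (abs_nonneg _) (by positivity)
              _ = _ := mul_one _
        _ ≤ ∑ _j : Fin m, 1 / (2 * (m : ℝ)) :=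
            Finset.sum_le_sum_of_subset_of_nonneg (Finset.erase_subset _ _)
              fun _ _ _ => by positivity
        _ = 1 / 2 := by
            rw [Finset.sum_const, Finset.card_univ, Fintype.card_fin, nsmul_eq_mul]
            field_simp
    have h3 : |u i₁| ≤ |u i₁ + ∑ j ∈ univ.erase i₁, u j * D j| +
        |∑ j ∈ univ.erase i₁, u j * D j| := by
      have := abs_add_le (u i₁ + ∑ j ∈ univ.erase i₁, u j * D j)
        (-∑ j ∈ univ.erase i₁, u j * D j)
      rw [abs_neg, add_neg_cancel_right] at this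
      exact this
    linarith

/-- The velocity of the line in the base. -/
lemma lB_chI (i₁ : Fin m) {ζ : Type} (l : ((Fin m → ℝ) × (Fin m → ℝ)) × ζ × ℕ) (j : Fin m) :
    lB (chI i₁) l (some j) = Function.update l.1.2 i₁ 1 j := by
  unfold lB chI
  by_cases hj : j = i₁
  · subst hj
    simp
  · simp only [Option.elim, if_neg hj]
    rw [Function.update_of_ne hj]

/-- Fans in slabs of the base lie near planes of codimension two. -/
theorem plU_of_slb {F : Fam m J} {i₁ : Fin m} {h : ℕ} {A B : F.Ω → Prop} (hCh : Ch F i₁ h A)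
    {δ : ℝ} (hδ : δ < 1 / 2) (hB : Sub B A) (w : ℕ)
    (hS : Fn (fun ω i => lB (chI i₁) (slam F w ω) (some i)) (Fam.pt F) (Slb m δ) B) :
    PlU (m - 2) (1 / 2 ^ h + 2 * m * δ) (Fam.pt F) F.d B := by
  classical
  obtain ⟨ζ, hζ⟩ := hS
  obtain ⟨n, s, hns⟩ := hCh
  have key : ∀ ξ, ∃ b : (Fin m → ℝ) × (Fin (m - 2) → Fin m → ℝ), ∀ ω, B ω → Fam.pt F ω = ξ →
      ∃ c : Fin (m - 2) → ℝ, ∀ i, |F.d ω i - b.1 i - ∑ l, c l * b.2 l i| ≤
        1 / 2 ^ h + 2 * m * δ := by
    intro ξ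
    by_cases hex : ∃ ω, B ω ∧ Fam.pt F ω = ξ
    · obtain ⟨ω₀, hω₀, hξ⟩ := hex
      obtain ⟨b, hb⟩ := plane_of_slab i₁ (ζ ξ) (n ξ) (s ξ) (η := 1 / 2 ^ h) hδ (by positivity)
        (by rw [← hξ]; exact (hζ ω₀ hω₀).1) (by rw [← hξ]; exact (hns ω₀ (hB _ hω₀)).1)
        (by rw [← hξ]; exact (hns ω₀ (hB _ hω₀)).2.1)
      refine ⟨b, fun ω hω hξ' => hb (F.d ω) (F.dir ω) ?_ ?_⟩
      · have h1 := (hζ ω hω).2
        rw [hξ'] at h1
        refine le_trans (le_of_eq ?_) h1
        congr 1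
        refine Finset.sum_congr rfl fun i _ => ?_
        exact congrArg (fun z => ζ ξ i * z) (lB_chI i₁ (slam F w ω) i).symm
      · have h1 := (hns ω (hB _ hω)).2.2
        rw [hξ'] at h1
        exact h1
    · exact ⟨(fun _ => 0, fun _ _ => 0), fun ω hω hξ => absurd ⟨ω, hω, hξ⟩ hex⟩
  choose b hb using key
  exact ⟨b, fun ω hω => hb _ ω hω rfl⟩

/-- **Nonconcentration of the base velocities**, in the form of a stable property. -/
theorem slb_of_sp {F : Fam m J} {i₁ : Fin m} {h : ℕ} {A : F.Ω → Prop} (hCh : Ch F i₁ h A)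
    {ψ g δ : ℝ} (hSp : Sp F (m - 2) ψ g A) (hδ : δ < 1 / 2)
    (hδg : 1 / 2 ^ h + 2 * m * δ ≤ 1 / 2 ^ ⌊g * J⌋₊) (hψ : 0 ≤ ψ) (w : ℕ) :
    Stb F.p (ψ * J) A (Fn (fun ω i => lB (chI i₁) (slam F w ω) (some i)) (Fam.pt F) (Slb m δ)) ∧
      ¬ Fn (fun ω i => lB (chI i₁) (slam F w ω) (some i)) (Fam.pt F) (Slb m δ) A := by
  have key : ∀ B, Sub B A → Real.exp (-(ψ * J)) * Pe F.p A ≤ Pe F.p B →
      ¬ Fn (fun ω i => lB (chI i₁) (slam F w ω) (some i)) (Fam.pt F) (Slb m δ) B := by
    intro B hB hP hF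
    exact hSp B hB hP ((plU_of_slb hCh hδ hB w hF).mono hδg)
  refine ⟨Or.inr key, key A (fun _ h => h) ?_⟩
  have h1 : Real.exp (-(ψ * J)) ≤ 1 := by
    rw [Real.exp_le_one_iff]
    have : 0 ≤ ψ * J := mul_nonneg hψ (Nat.cast_nonneg J)
    linarith
  calc _ ≤ 1 * Pe F.p A := mul_le_mul_of_nonneg_right h1 (Pe_nonneg F.isLaw A)
    _ = _ := one_mul _

end Pool.FLF
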