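import Pool.Agent.H99.FLF.SUP

/-!
# Nonconcentration of the fans from stability

If the base velocities at exact points are not in slabs, on any large part of a stable event, then
the fans of the restricted family satisfy `NCF`.
-/

set_option autoImplicit false

namespace Pool.FLF

open Finset Real
open Pool.Agent.H49.Ent Pool.Agent.H32.Dense Pool.STK Pool.KA Pool.KSAT Pool.K2S Pool.KS3

/-- The vector `v` lies in the slab of width `δ` given by `u`; `u` is not small. -/
def Slb (n : ℕ) (δ : ℝ) (v u : Fin n → ℝ) : Prop :=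
  (∃ i, 1 ≤ |u i|) ∧ |∑ i, u i * v i| ≤ δ

section

variable {Ω Λ Ξ : Type} [Fintype Ω] {n : ℕ}

/-- A hereditary property which is weaker on smaller events. -/
lemma Stb.of_imp {p : Ω → ℝ} {κ : ℝ} {A : Ω → Prop} {Q Q' : (Ω → Prop) → Prop}
    (h : ∀ B, Sub B A → Q' B → Q B) (hs : Stb p κ A Q) (hn : ¬ Q A) :
    Stb p κ A Q' ∧ ¬ Q' A := by
  refine ⟨Or.inr fun B hB hP hQ => ?_, fun hQ => hn (h A (fun _ hω => hω) hQ)⟩
  rcases hs with hs | hs
  · exact hn hs
  · exact hs B hB hP (h B hB hQ)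

open Classical in
/-- **Nonconcentration from stability.** -/
theorem ncf_of_stb {p : Ω → ℝ} (hp : IsLaw p) {κ δ : ℝ} {A : Ω → Prop} (hA : 0 < Pe p A)
    (lam : Ω → Λ) (x : Ω → Ξ) (B : Λ → Option (Fin n) → ℝ)
    (hs : Stb p κ A (Fn (fun ω i => B (lam ω) (some i)) x (Slb n δ)))
    (hn : ¬ Fn (fun ω i => B (lam ω) (some i)) x (Slb n δ) A) :
    ∃ e : Ξ → ℝ, (∀ a, 0 ≤ e a) ∧
      Ex (sp p A) (fun ω : {ω // A ω} => e (x ω.1)) ≤ 2 * Real.exp (-(κ / 2)) ∧
      (∑ ω : {ω // A ω}, if Real.exp (-(κ / 2)) < e (x ω.1) then sp p A ω else 0) ≤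
        Real.exp (-(κ / 2)) ∧
      NCF (sp p A) (fun ω : {ω // A ω} => lam ω.1) (fun ω => x ω.1) B δ e := by
  set q := Pool.Agent.H49.Ent.cond p A True with hq
  have hql : IsLaw q := isLaw_cond hp hA
  have hql0 := hql.nonneg
  have mg : Marg (sp p A) q (fun ω : {ω // A ω} => ω.1) := sp_marg A
  have hspl := sp_isLaw hp hA
  set c : Ω → Fin n → ℝ := fun ω i => B (lam ω) (some i) with hc
  have hpt := Stb.point hp hA hs hn
  rw [← hq] at hpt
  set bad : Ξ → Prop := fun ξ => ∃ s, Real.exp (-(κ / 2)) * law q x ξ <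
      mas q c x (Slb n δ) ξ s with hbad
  set e : Ξ → ℝ := fun ξ => if bad ξ then 1 else Real.exp (-(κ / 2)) with he
  have he0 : ∀ ξ, 0 ≤ e ξ := by
    intro ξ
    simp only [he]
    split_ifs
    exacts [zero_le_one, (Real.exp_pos _).le]
  -- the bad points
  have hb1 : Ex q (fun ω => if bad (x ω) then 1 else 0) ≤ Real.exp (-(κ / 2)) := by
    refine le_trans (le_of_eq ?_) hpt
    rw [Pe_eq]
    unfold Ex
    refine Finset.sum_congr rfl fun ω _ => ?_
    rw [mul_ite, mul_one, mul_zero]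
  refine ⟨e, he0, ?_, ?_, ?_⟩
  · have h1 : Ex (sp p A) (fun ω : {ω // A ω} => e (x ω.1)) = Ex q (fun ω => e (x ω)) :=
      mg.ex (fun ω => e (x ω))
    rw [h1]
    have h2 : Ex q (fun ω => e (x ω)) ≤ Ex q (fun ω => Real.exp (-(κ / 2)) +
        (if bad (x ω) then 1 else 0)) := by
      refine Ex_mono hql0 fun ω _ => ?_
      simp only [he]
      have := (Real.exp_pos (-(κ / 2))).le
      split_ifs <;> linarith
    refine h2.trans ?_
    rw [Ex_add, Ex_const hql.sum_one]
    linarith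
  · have h1 : (∑ ω : {ω // A ω}, if Real.exp (-(κ / 2)) < e (x ω.1) then sp p A ω else 0) =
        Ex (sp p A) (fun ω : {ω // A ω} =>
          if Real.exp (-(κ / 2)) < e (x ω.1) then (1 : ℝ) else 0) := by
      unfold Ex
      refine Finset.sum_congr rfl fun ω _ => ?_
      rw [mul_ite, mul_one, mul_zero]
    rw [h1]
    have h2 : Ex (sp p A) (fun ω : {ω // A ω} =>
        if Real.exp (-(κ / 2)) < e (x ω.1) then (1 : ℝ) else 0) =
        Ex q (fun ω => if Real.exp (-(κ / 2)) < e (x ω) then (1 : ℝ) else 0) :=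
      mg.ex (fun ω => if Real.exp (-(κ / 2)) < e (x ω) then (1 : ℝ) else 0)
    rw [h2]
    refine le_trans (Ex_mono hql0 fun ω _ => ?_) hb1
    by_cases hb : bad (x ω)
    · rw [if_pos hb]
      split_ifs
      exacts [le_rfl, zero_le_one]
    · rw [if_neg hb]
      have : e (x ω) = Real.exp (-(κ / 2)) := by
        simp only [he]
        rw [if_neg hb]
      rw [this, if_neg (lt_irrefl _)]
  · intro ω hω u hu
    have hqω : 0 < q ω.1 := mg.pos hspl.nonneg hω
    have h1 : law (sp p A) (fun ω : {ω // A ω} => x ω.1) (x ω.1) = law q x (x ω.1) :=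
      mg.law x (x ω.1)
    rw [h1]
    have h2 : (∑ ω' : {ω // A ω}, if x ω'.1 = x ω.1 ∧
        |∑ i, u i * B (lam ω'.1) (some i)| ≤ δ then sp p A ω' else 0) =
        mas q c x (Slb n δ) (x ω.1) u := by
      have a1 := mg.ex (fun ω' => if x ω' = x ω.1 ∧ |∑ i, u i * B (lam ω') (some i)| ≤ δ then
        (1 : ℝ) else 0)
      unfold Ex at a1
      simp only [mul_ite, mul_one, mul_zero] at a1
      rw [a1]
      unfold mas
      rw [Pe_eq]
      refine Finset.sum_congr rfl fun ω' _ => ?_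
      by_cases h : x ω' = x ω.1 ∧ |∑ i, u i * B (lam ω') (some i)| ≤ δ
      · rw [if_pos h, if_pos ⟨h.1, hu, h.2⟩]
      · rw [if_neg h, if_neg (fun h' => h ⟨h'.1, h'.2.2⟩)]
    rw [h2]
    have hl0 : 0 ≤ law q x (x ω.1) := law_nonneg hql0 _ _
    by_cases hb : bad (x ω.1)
    · have h3 : e (x ω.1) = 1 := by
        simp only [he]
        rw [if_pos hb]
      rw [h3, one_mul]
      unfold mas
      rw [Pe_eq]
      unfold law
      refine Finset.sum_le_sum fun ω' _ => ?_
      by_cases h : x ω' = x ω.1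
      · rw [if_pos h]
        split_ifs
        exacts [le_rfl, hql0 ω']
      · rw [if_neg h, if_neg (fun h' => h h'.1)]
    · have h3 : e (x ω.1) = Real.exp (-(κ / 2)) := by
        simp only [he]
        rw [if_neg hb]
      rw [h3]
      by_contra hlt
      push Not at hlt
      exact hb ⟨u, hlt⟩

/-- The fans at coarser points. -/
theorem NCF.coarse {Ξ' : Type} {p : Ω → ℝ} (hp : IsLaw p) {lam : Ω → Λ} {x : Ω → Ξ}
    {B : Λ → Option (Fin n) → ℝ} {δ ε : ℝ} {e : Ξ → ℝ} (he : ∀ a, 0 ≤ e a)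
    (h : NCF p lam x B δ e) (hε : Ex p (fun ω => e (x ω)) ≤ ε) {x' : Ω → Ξ'}
    (hx : Det p x x') :
    ∃ e' : Ξ' → ℝ, (∀ a, 0 ≤ e' a) ∧ Ex p (fun ω => e' (x' ω)) ≤ ε ∧ NCF p lam x' B δ e' := by
  classical
  have hp0 := hp.nonneg
  refine ⟨fun ξ => (∑ ω, if x' ω = ξ then p ω * e (x ω) else 0) / law p x' ξ, fun ξ => ?_, ?_, ?_⟩
  · refine div_nonneg (Finset.sum_nonneg fun ω _ => ?_) (law_nonneg hp0 _ _)
    split_ifs
    exacts [mul_nonneg (hp0 ω) (he _), le_rfl]
  · refine le_trans (le_of_eq ?_) hε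
    unfold Ex
    have h1 : ∀ ω, p ω * ((∑ ω', if x' ω' = x' ω then p ω' * e (x ω') else 0) /
        law p x' (x' ω)) = ∑ ω', (if x' ω' = x' ω then
          p ω' * e (x ω') * (p ω / law p x' (x' ω')) else 0) := by
      intro ω
      rw [Finset.sum_div, Finset.mul_sum]
      refine Finset.sum_congr rfl fun ω' _ => ?_
      by_cases h : x' ω' = x' ω
      · rw [if_pos h, if_pos h, h]
        ring
      · rw [if_neg h, if_neg h, zero_div, mul_zero]
    simp only [h1]
    rw [Finset.sum_comm]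
    refine Finset.sum_congr rfl fun ω' _ => ?_
    rcases (hp0 ω').eq_or_lt with h0 | h0
    · rw [← h0]
      simp
    · have hl := law_pos hp0 x' h0
      have h2 : ∀ ω, (if x' ω' = x' ω then p ω' * e (x ω') * (p ω / law p x' (x' ω')) else 0) =
          p ω' * e (x ω') / law p x' (x' ω') * (if x' ω = x' ω' then p ω else 0) := by
        intro ω
        by_cases h : x' ω' = x' ω
        · rw [if_pos h, if_pos h.symm]
          ring
        · rw [if_neg h, if_neg (fun h' => h h'.symm), mul_zero]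
      simp only [h2]
      rw [← Finset.mul_sum]
      have h3 : (∑ ω, if x' ω = x' ω' then p ω else 0) = law p x' (x' ω') := rfl
      rw [h3, div_mul_cancel₀ _ hl.ne']
  · intro ω hω u hu
    have hl := law_pos hp0 x' hω
    rw [div_mul_cancel₀ _ hl.ne']
    -- decompose according to the fine point
    have key : ∀ (f : Ω → Prop) [DecidablePred f], (∑ ω', if f ω' then p ω' else 0) =
        ∑ ξ ∈ univ.image x, ∑ ω', if x ω' = ξ ∧ f ω' then p ω' else 0 := by
      intro f _
      rw [Finset.sum_comm]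
      refine Finset.sum_congr rfl fun ω' _ => ?_
      rw [Finset.sum_eq_single (x ω')]
      · simp
      · intro ξ _ hξ
        rw [if_neg]
        rintro ⟨h1, -⟩
        exact hξ h1.symm
      · intro h1
        exact absurd (Finset.mem_image_of_mem x (Finset.mem_univ ω')) h1
    rw [key (fun ω' => x' ω' = x' ω ∧ |∑ i, u i * B (lam ω') (some i)| ≤ δ)]
    have r1 : (∑ ω', if x' ω' = x' ω then p ω' * e (x ω') else 0) =
        ∑ ξ ∈ univ.image x, ∑ ω', if x ω' = ξ ∧ x' ω' = x' ω then p ω' * e ξ else 0 := by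
      rw [Finset.sum_comm]
      refine Finset.sum_congr rfl fun ω' _ => ?_
      rw [Finset.sum_eq_single (x ω')]
      · simp
      · intro ξ _ hξ
        rw [if_neg]
        rintro ⟨h1, -⟩
        exact hξ h1.symm
      · intro h1
        exact absurd (Finset.mem_image_of_mem x (Finset.mem_univ ω')) h1
    rw [r1]
    refine Finset.sum_le_sum fun ξ _ => ?_
    by_cases hex : ∃ ω₁, 0 < p ω₁ ∧ x ω₁ = ξ ∧ x' ω₁ = x' ω
    · obtain ⟨ω₁, h1, h2, h3⟩ := hex
      have h4 := h ω₁ h1 u hu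
      rw [h2] at h4
      have h5 : (∑ ω', if x ω' = ξ ∧ x' ω' = x' ω ∧ |∑ i, u i * B (lam ω') (some i)| ≤ δ
          then p ω' else 0) ≤
          ∑ ω', if x ω' = ξ ∧ |∑ i, u i * B (lam ω') (some i)| ≤ δ then p ω' else 0 := by
        refine Finset.sum_le_sum fun ω' _ => ?_
        by_cases h : x ω' = ξ ∧ x' ω' = x' ω ∧ |∑ i, u i * B (lam ω') (some i)| ≤ δ
        · rw [if_pos h, if_pos ⟨h.1, h.2.2⟩]
        · rw [if_neg h]
          split_ifs
          exacts [hp0 ω', le_rfl]
      refine h5.trans (h4.trans (le_of_eq ?_))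
      unfold law
      rw [Finset.mul_sum]
      refine Finset.sum_congr rfl fun ω' _ => ?_
      rcases (hp0 ω').eq_or_lt with h0 | h0
      · rw [← h0]
        simp
      · by_cases h6 : x ω' = ξ
        · have h7 : x' ω' = x' ω := (hx ω' ω₁ h0 h1 (h6.trans h2.symm)).trans h3
          rw [if_pos h6, if_pos ⟨h6, h7⟩]
          ring
        · rw [if_neg h6, if_neg (fun h' => h6 h'.1), mul_zero]
    · have h5 : ∀ ω', x ω' = ξ → x' ω' = x' ω → p ω' = 0 := by
        intro ω' h1 h2
        by_contra hne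
        exact hex ⟨ω', lt_of_le_of_ne (hp0 ω') (Ne.symm hne), h1, h2⟩
      refine le_of_eq ?_
      refine Finset.sum_congr rfl fun ω' _ => ?_
      by_cases h6 : x ω' = ξ ∧ x' ω' = x' ω
      · rw [if_pos h6, h5 ω' h6.1 h6.2]
        simp
      · rw [if_neg h6, if_neg (fun h' => h6 ⟨h'.1, h'.2.1⟩)]

end

end Pool.FLF
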