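import Pool.Agent.H99.FLF.Base

/-!
# From families to leaves in a long window
-/

set_option autoImplicit false

namespace Pool.FLF

open Finset Real
open Pool.Agent.H49.Ent Pool.Agent.H32.Dense Pool.STK Pool.KA Pool.KSAT Pool.K2S Pool.KS3

variable {m J n : ℕ} {ζ : Type}

/-- The leaf window in the long window. -/
lemma pT_div (F : Fam m J) {w a L : ℕ} (h : w + (a + L) = J) (ω : F.Ω) :
    F.T1 (w + a) ω = 2 ^ a * F.T1 w ω + pT (a + L) (Fam.pt F ω) / 2 ^ L := by
  have h1 : J - (w + a) = L := by omega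
  have h2 : J - w = a + L := by omega
  have h3 : (Fam.pt F ω).2.1 = F.T ω := rfl
  unfold Fam.T1 pT
  rw [h1, h2, h3, pow_add 2 a L, mul_comm (2 ^ a) (2 ^ L), Nat.mod_mul_right_div_self,
    ← Nat.div_div_eq_div_mul]
  exact (Nat.div_add_mod _ _).symm

/-- The first digits of a time in the window. -/
lemma mod_div_pow (t a L : ℕ) : t % 2 ^ (a + L) / 2 ^ L = t / 2 ^ L % 2 ^ a := by
  rw [pow_add, mul_comm, Nat.mod_mul_right_div_self]

/-- The first digits of a position in the window. -/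
lemma emod_div_pow (x : ℤ) (a L : ℕ) :
    (x % 2 ^ (a + L)).toNat / 2 ^ L = (x / 2 ^ L % 2 ^ a).toNat := by
  have h2 : (0 : ℤ) < 2 ^ L := by positivity
  have h0 : (0 : ℤ) < 2 ^ a := by positivity
  have h1 : (((x % 2 ^ (a + L)).toNat / 2 ^ L : ℕ) : ℤ) = x % 2 ^ (a + L) / 2 ^ L := by
    push_cast
    rw [emod_toNat]
  have h3 : (((x / 2 ^ L % 2 ^ a).toNat : ℕ) : ℤ) = x / 2 ^ L % 2 ^ a := emod_toNat _ _
  have h4 : x % 2 ^ (a + L) / 2 ^ L = x / 2 ^ L % 2 ^ a := by
    have e1 : x % 2 ^ (a + L) = 2 ^ L * (x / 2 ^ L % 2 ^ a) + x % 2 ^ L := by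
      have a1 := Int.emod_add_mul_ediv x (2 ^ L)
      have a2 := Int.emod_add_mul_ediv (x / 2 ^ L) (2 ^ a)
      have a3 := Int.emod_nonneg x h2.ne'
      have a4 := Int.emod_lt_of_pos x h2
      have a5 := Int.emod_nonneg (x / 2 ^ L) h0.ne'
      have a6 := Int.emod_lt_of_pos (x / 2 ^ L) h0
      rw [Int.emod_eq_iff (by positivity)]
      refine ⟨by positivity, ?_, ?_⟩
      · have : 2 ^ L * (x / 2 ^ L % 2 ^ a) + x % 2 ^ L < 2 ^ L * 2 ^ a := by nlinarith
        have e5 : |(2 : ℤ) ^ (a + L)| = 2 ^ L * 2 ^ a := by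
          rw [abs_of_pos (by positivity), pow_add, mul_comm]
        rw [Int.natCast_natAbs, e5]
        exact this
      · refine ⟨-(x / 2 ^ L / 2 ^ a), ?_⟩
        rw [pow_add]
        linear_combination (2 : ℤ) ^ L * a2 + a1
    rw [e1, mul_comm (2 ^ L), Int.add_comm, Int.add_mul_ediv_right _ _ h2.ne',
      Int.ediv_eq_zero_of_lt (Int.emod_nonneg x h2.ne') (Int.emod_lt_of_pos x h2), zero_add]
  have : (((x % 2 ^ (a + L)).toNat / 2 ^ L : ℕ) : ℤ) = (((x / 2 ^ L % 2 ^ a).toNat : ℕ) : ℤ) := by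
    rw [h1, h3, h4]
  exact_mod_cast this

/-- The position at lower resolution. -/
lemma X_div (F : Fam m J) {w L : ℕ} (h : w + L = J) (ω : F.Ω) (i : Fin m) :
    F.X w ω i = F.X J ω i / 2 ^ L := by
  have h1 := X_emod F h ω i
  have h2 := Int.emod_add_mul_ediv (F.X J ω i) (2 ^ L)
  have h3 : (0 : ℤ) < 2 ^ L := by positivity
  have h4 : (2 : ℤ) ^ L * F.X w ω i = 2 ^ L * (F.X J ω i / 2 ^ L) := by linarith
  exact mul_left_cancel₀ h3.ne' h4

/-- **The leaves of a family in a long window.** `z` is a label which is a function of the exact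
point and of the line with the leaf window, and which determines the cell of the leaf window. -/
theorem stepF (F : Fam m J) {w a L : ℕ} (h : w + (a + L) = J)
    (c : Option (Fin n) → Option (Fin m))
    (cl : ((Fin m → ℝ) × (Fin m → ℝ)) × F.ζ × ℕ → Fin m → ℤ)
    (hcl : ∀ ω, F.X w ω = cl (slam F w ω)) {Z : Type} (zx : (Fin m → ℤ) × (ℕ × F.ζ) → Z)
    (zs : ((Fin m → ℝ) × (Fin m → ℝ)) × F.ζ × ℕ → Z)
    (hz : ∀ ω, zx (Fam.pt F ω) = zs (slam F (w + a) ω)) (cz : Z → ℕ × (Fin m → ℤ))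
    (hcz : ∀ ω, cz (zx (Fam.pt F ω)) = (F.T1 (w + a) ω, F.X (w + a) ω)) :
    StepF n a L 2 F.p (slam F w) (Fam.pt F) (pT (a + L)) (ppos (a + L) c) (lA w c cl) (lB c) zx
      (fun l t => zs (l.1, l.2.1, 2 ^ a * l.2.2 + t))
      (fun y o => (c o).elim ((cz y).1 % 2 ^ a) (fun i => ((cz y).2 i % 2 ^ a).toNat)) where
  leaf := leaf F h c cl hcl
  lab := by
    intro ω
    rw [hz ω]
    have h1 : slam F (w + a) ω = (F.l ω, F.Z ω, F.T1 (w + a) ω) := rfl
    have h2 : slam F w ω = (F.l ω, F.Z ω, F.T1 w ω) := rfl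
    rw [h1, h2, pT_div F h ω]
  cell := by
    intro ω o
    simp only [hcz ω]
    unfold ppos
    cases c o with
    | none =>
      simp only [Option.elim]
      have h3 : (Fam.pt F ω).2.1 = F.T ω := rfl
      rw [mod_div_pow, h3]
      unfold Fam.T1
      rw [show J - (w + a) = L by omega]
    | some i =>
      simp only [Option.elim]
      rw [emod_div_pow, X_div F (show w + a + L = J by omega) ω i]
      rfl

/-- **Time fullness.** -/
theorem time_full (F : Fam m J) {w L : ℕ} (h : w + L = J) {e : ℝ} (he : F.Tm e) :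
    L * Real.log 2 - CH F.p (fun ω => pT L (Fam.pt F ω)) (slam F w) ≤ e := by
  have h0 := F.isLaw.nonneg
  have c1 := time_digits F (w := w) (K := L) (by omega) he
  have e1 : CH F.p (fun ω => (F.T1 (w + L) ω : ℤ)) (slam F w) =
      CH F.p (fun ω => pT L (Fam.pt F ω)) (slam F w) := by
    have key : ∀ ω, F.T1 (w + L) ω = 2 ^ L * F.T1 w ω + pT L (Fam.pt F ω) := by
      intro ω
      have := pT_div F (w := w) (a := L) (L := 0) (by omega) ω
      simpa using this
    refine CH_congr h0 ?_ ?_ ?_ ?_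
    · intro ω ω' _ _ hh
      have h1 := (Prod.ext_iff.mp hh).1
      have h2 : slam F w ω = slam F w ω' := (Prod.ext_iff.mp hh).2
      have h3 : F.T1 w ω = F.T1 w ω' := congrArg (fun s => s.2.2) h2
      simp only at h1 ⊢
      have h4 : F.T1 (w + L) ω = F.T1 (w + L) ω' := by exact_mod_cast h1
      rw [key, key, h3] at h4
      omega
    · intro ω ω' _ _ hh
      have h1 := (Prod.ext_iff.mp hh).1
      have h2 : slam F w ω = slam F w ω' := (Prod.ext_iff.mp hh).2
      have h3 : F.T1 w ω = F.T1 w ω' := congrArg (fun s => s.2.2) h2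
      simp only at h1 ⊢
      rw [key, key, h3, h1]
    · intro ω ω' _ _ hh
      exact hh
    · intro ω ω' _ _ hh
      exact hh
  rw [e1] at c1
  linarith

end Pool.FLF
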