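import Pool.Agent.H99.FLF.NCS

/-!
# Leaves at lower resolution

The points have resolution `r` (position and time).
-/

set_option autoImplicit false

namespace Pool.FLF

open Finset Real
open Pool.Agent.H49.Ent Pool.Agent.H32.Dense Pool.STK Pool.KA Pool.KSAT Pool.K2S Pool.KS3

variable {m J n : ℕ}

/-- The point of resolution `r`, with the time of resolution `r`. -/
noncomputable def trp (F : Fam m J) (r : ℕ) (ω : F.Ω) : (Fin m → ℤ) × (ℕ × F.ζ) :=
  (F.X r ω, (F.T1 r ω, F.Z ω))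

/-- The digits of the position between `2 ^ (-w)` and `2 ^ (-r)`. -/
lemma Xr_emod (F : Fam m J) {w L r : ℕ} (h : w + L = r) (ω : F.Ω) (i : Fin m) :
    F.X r ω i % 2 ^ L = F.X r ω i - 2 ^ L * F.X w ω i := by
  have h1 : F.X w ω i = F.X r ω i / 2 ^ L := by
    have e0 : (2 : ℝ) ^ r = 2 ^ w * 2 ^ L := by rw [← h, pow_add]
    have e2 : (2 : ℝ) ^ w * F.x ω i = (2 ^ r * F.x ω i) / ((2 ^ L : ℕ) : ℝ) := by
      rw [e0]
      push_cast
      field_simp
    have e3 : F.X w ω i = ⌊(2 : ℝ) ^ w * F.x ω i⌋ := rfl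
    have e4 : F.X r ω i = ⌊(2 : ℝ) ^ r * F.x ω i⌋ := rfl
    rw [e3, e4, e2, Int.floor_div_natCast]
    push_cast
    rfl
  rw [h1]
  have := Int.emod_add_mul_ediv (F.X r ω i) (2 ^ L)
  linarith

/-- The time at resolution `r` inside the window. -/
lemma tr_split (F : Fam m J) {w L r : ℕ} (h : w + L = r) (hr : r ≤ J) (ω : F.Ω) :
    0 ≤ ((F.T ω % 2 ^ (J - w) : ℕ) : ℝ) / 2 ^ (J - w) - ((F.T1 r ω % 2 ^ L : ℕ) : ℝ) / 2 ^ L ∧
    ((F.T ω % 2 ^ (J - w) : ℕ) : ℝ) / 2 ^ (J - w) - ((F.T1 r ω % 2 ^ L : ℕ) : ℝ) / 2 ^ L ≤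
      1 / 2 ^ L := by
  have e1 : J - w = L + (J - r) := by omega
  have e2 : F.T ω % 2 ^ (J - w) = 2 ^ (J - r) * (F.T1 r ω % 2 ^ L) + F.T ω % 2 ^ (J - r) := by
    unfold Fam.T1
    rw [e1, pow_add, mul_comm (2 ^ L), Nat.mod_mul]
    ring
  have e3 : F.T ω % 2 ^ (J - r) < 2 ^ (J - r) := Nat.mod_lt _ (Nat.two_pow_pos _)
  have e4 : ((F.T ω % 2 ^ (J - w) : ℕ) : ℝ) / 2 ^ (J - w) -
      ((F.T1 r ω % 2 ^ L : ℕ) : ℝ) / 2 ^ L =
      ((F.T ω % 2 ^ (J - r) : ℕ) : ℝ) / 2 ^ (J - w) := by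
    rw [e2, e1, pow_add]
    push_cast
    field_simp
    ring
  rw [e4]
  refine ⟨by positivity, ?_⟩
  rw [e1, pow_add, div_le_div_iff₀ (by positivity) (by positivity)]
  have e5 : ((F.T ω % 2 ^ (J - r) : ℕ) : ℝ) ≤ 2 ^ (J - r) := by exact_mod_cast e3.le
  have e6 : (0 : ℝ) < 2 ^ L := by positivity
  nlinarith

/-- **The leaf of a family at resolution `r`.** -/
theorem leafr (F : Fam m J) {w L r : ℕ} (h : w + L = r) (hr : r ≤ J)
    (c : Option (Fin n) → Option (Fin m))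
    (cl : ((Fin m → ℝ) × (Fin m → ℝ)) × F.ζ × ℕ → Fin m → ℤ)
    (hcl : ∀ ω, F.X w ω = cl (slam F w ω)) :
    Leaf n (2 ^ L) 2 F.p (slam F w) (trp F r) (pT L) (ppos L c) (lA w c cl) (lB c) := by
  have hL : (0 : ℝ) < 2 ^ L := by positivity
  have hM : ((2 ^ L : ℕ) : ℝ) = 2 ^ L := by push_cast; rfl
  have hJr : (2 : ℝ) ^ r = 2 ^ w * 2 ^ L := by rw [← h, pow_add]
  have hfl : ∀ ω i, 0 ≤ 2 ^ w * F.x ω i - F.X w ω i ∧ 2 ^ w * F.x ω i - F.X w ω i < 1 := by
    intro ω i
    unfold Fam.X fl rd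
    exact ⟨sub_nonneg.2 (Int.floor_le _), by
      have := Int.lt_floor_add_one (2 ^ w * F.x ω i)
      linarith⟩
  have hq : ∀ ω, 0 ≤ ((F.T ω % 2 ^ (J - w) : ℕ) : ℝ) / 2 ^ (J - w) ∧
      ((F.T ω % 2 ^ (J - w) : ℕ) : ℝ) / 2 ^ (J - w) ≤ 1 := by
    intro ω
    refine ⟨by positivity, ?_⟩
    rw [div_le_one (by positivity)]
    have : F.T ω % 2 ^ (J - w) < 2 ^ (J - w) := Nat.mod_lt _ (Nat.two_pow_pos _)
    exact_mod_cast this.le
  have hx : ∀ ω i, 2 ^ w * F.x ω i = 2 ^ w * F.x1 w ω i +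
      ((F.T ω % 2 ^ (J - w) : ℕ) : ℝ) / 2 ^ (J - w) * F.d ω i :=
    fun ω i => x_split F (w := w) (L := J - w) (by omega) ω i
  refine
    { isLaw := F.isLaw
      T_lt := fun ω => Nat.mod_lt _ (Nat.two_pow_pos L)
      pos_lt := ?_
      near := ?_
      A_le := ?_
      B_le := ?_ }
  · intro ω o
    unfold ppos
    cases c o with
    | none => exact Nat.mod_lt _ (Nat.two_pow_pos L)
    | some i =>
      simp only [Option.elim]
      have h1 := emod_toNat ((trp F r ω).1 i) L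
      have h2 : (trp F r ω).1 i % 2 ^ L < 2 ^ L := Int.emod_lt_of_pos _ (by positivity)
      have : ((((trp F r ω).1 i % 2 ^ L).toNat : ℕ) : ℤ) < ((2 ^ L : ℕ) : ℤ) := by
        rw [h1]
        push_cast
        exact h2
      exact_mod_cast this
  · intro ω o
    unfold ppos lA lB pT
    rw [hM]
    cases c o with
    | none =>
      simp only [Option.elim]
      have e1 : ((((trp F r ω).2.1 % 2 ^ L : ℕ)) : ℝ) / 2 ^ L -
          (0 + (((trp F r ω).2.1 % 2 ^ L : ℕ) : ℝ) / 2 ^ L * 1) = 0 := by ring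
      rw [e1, abs_zero]
      positivity
    | some i =>
      simp only [Option.elim]
      have h1 := emod_toNat ((trp F r ω).1 i) L
      have h2 : (((((trp F r ω).1 i % 2 ^ L).toNat : ℕ)) : ℝ) =
          (F.X r ω i : ℝ) - 2 ^ L * F.X w ω i := by
        have h3 : (((((trp F r ω).1 i % 2 ^ L).toNat : ℕ) : ℤ) : ℝ) =
            ((F.X r ω i - 2 ^ L * F.X w ω i : ℤ) : ℝ) := by
          rw [h1]
          congr 1
          exact Xr_emod F h ω i
        have h4 : (((((trp F r ω).1 i % 2 ^ L).toNat : ℕ)) : ℝ) =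
            (((((trp F r ω).1 i % 2 ^ L).toNat : ℕ) : ℤ) : ℝ) := by push_cast; rfl
        rw [h4, h3]
        push_cast
        ring
      rw [h2]
      have h5 := hx ω i
      have h6 : (slam F w ω).1.1 i + ((slam F w ω).2.2 : ℝ) / 2 ^ w * (slam F w ω).1.2 i =
          F.x1 w ω i := rfl
      have h7 : (slam F w ω).1.2 i = F.d ω i := rfl
      have h8 : (trp F r ω).2.1 = F.T1 r ω := rfl
      rw [h6, h7, h8, ← hcl ω]
      have h9 : (F.X r ω i : ℝ) ≤ 2 ^ r * F.x ω i ∧ 2 ^ r * F.x ω i < F.X r ω i + 1 := by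
        unfold Fam.X fl rd
        exact ⟨Int.floor_le _, Int.lt_floor_add_one _⟩
      have h12 := tr_split F h hr ω
      have h13 := F.dir ω i
      set σ : ℝ := ((F.T ω % 2 ^ (J - w) : ℕ) : ℝ) / 2 ^ (J - w) with hσ
      set τ : ℝ := ((F.T1 r ω % 2 ^ L : ℕ) : ℝ) / 2 ^ L with hτ
      have h10 : ((F.X r ω i : ℝ) - 2 ^ L * F.X w ω i) / 2 ^ L -
          (2 ^ w * F.x1 w ω i - F.X w ω i + τ * F.d ω i) =
          ((F.X r ω i : ℝ) - 2 ^ r * F.x ω i) / 2 ^ L + (σ - τ) * F.d ω i := by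
        have h11 : 2 ^ w * F.x1 w ω i = 2 ^ w * F.x ω i - σ * F.d ω i := by
          rw [h5]; ring
        rw [h11, hJr]
        field_simp
        ring
      rw [h10]
      have g1 : |((F.X r ω i : ℝ) - 2 ^ r * F.x ω i) / 2 ^ L| ≤ 1 / 2 ^ L := by
        rw [abs_div, abs_of_pos hL]
        refine div_le_div_of_nonneg_right ?_ hL.le
        rw [abs_le]
        constructor <;> linarith [h9.1, h9.2]
      have g2 : |(σ - τ) * F.d ω i| ≤ 1 / 2 ^ L := by
        rw [abs_mul, abs_of_nonneg h12.1]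
        calc (σ - τ) * |F.d ω i| ≤ 1 / 2 ^ L * 1 :=
              mul_le_mul h12.2 h13 (abs_nonneg _) (by positivity)
          _ = _ := mul_one _
      have g3 : (2 : ℝ) / 2 ^ L = 1 / 2 ^ L + 1 / 2 ^ L := by ring
      rw [g3]
      exact (abs_add_le _ _).trans (add_le_add g1 g2)
  · intro ω o
    unfold lA
    cases c o with
    | none =>
      simp only [Option.elim, abs_zero]
      norm_num
    | some i =>
      simp only [Option.elim]
      have h6 : (slam F w ω).1.1 i + ((slam F w ω).2.2 : ℝ) / 2 ^ w * (slam F w ω).1.2 i =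
          F.x1 w ω i := rfl
      rw [h6, ← hcl ω]
      have h5 := hx ω i
      have h3 := hfl ω i
      have h4 : |((F.T ω % 2 ^ (J - w) : ℕ) : ℝ) / 2 ^ (J - w) * F.d ω i| ≤ 1 := by
        rw [abs_mul, abs_of_nonneg (hq ω).1]
        have := F.dir ω i
        have := abs_nonneg (F.d ω i)
        have := (hq ω).2
        have := (hq ω).1
        nlinarith
      rw [abs_le] at h4 ⊢
      constructor <;> linarith [h3.1, h3.2, h4.1, h4.2]
  · intro ω o
    unfold lB
    cases c o with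
    | none =>
      simp only [Option.elim]
      norm_num
    | some i =>
      simp only [Option.elim]
      have : |(slam F w ω).1.2 i| ≤ 1 := F.dir ω i
      linarith

/-- **Time fullness at resolution `r`.** -/
theorem time_fullr (F : Fam m J) {w L r : ℕ} (h : w + L = r) (hr : r ≤ J) {e : ℝ} (he : F.Tm e) :
    L * Real.log 2 - CH F.p (fun ω => pT L (trp F r ω)) (slam F w) ≤ e := by
  have h0 := F.isLaw.nonneg
  have c1 := time_digits F (w := w) (K := L) (by omega) he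
  have e1 : CH F.p (fun ω => (F.T1 (w + L) ω : ℤ)) (slam F w) =
      CH F.p (fun ω => pT L (trp F r ω)) (slam F w) := by
    have key : ∀ ω, F.T1 (w + L) ω = 2 ^ L * F.T1 w ω + pT L (trp F r ω) := by
      intro ω
      have h3 : (trp F r ω).2.1 = F.T1 r ω := rfl
      have h4 := T1_div F (w := w) (K := L) (by omega) ω
      unfold pT
      rw [h3, ← h, h4]
      exact (Nat.div_add_mod _ _).symm
    refine CH_congr h0 ?_ ?_ ?_ ?_
    · intro ω ω' _ _ hh
      have h1 := (Prod.ext_iff.mp hh).1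
      have h2 : slam F w ω = slam F w ω' := (Prod.ext_iff.mp hh).2
      have h3 : F.T1 w ω = F.T1 w ω' := congrArg (fun s => s.2.2) h2
      simp only at h1 ⊢
      have h4 : F.T1 (w + L) ω = F.T1 (w + L) ω' := by exact_mod_cast h1
      rw [key, key, h3] at h4
      omega
    · intro ω ω' _ _ hh
      have h1 := (Prod.ext_iff.mp hh).1
      have h2 : slam F w ω = slam F w ω' := (Prod.ext_iff.mp hh).2
      have h3 : F.T1 w ω = F.T1 w ω' := congrArg (fun s => s.2.2) h2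
      simp only at h1 ⊢
      rw [key, key, h3, h1]
    · intro ω ω' _ _ hh
      exact hh
    · intro ω ω' _ _ hh
      exact hh
  rw [e1] at c1
  linarith

/-- The point of lower resolution is a function of the exact point. -/
lemma trp_coarse (F : Fam m J) {r : ℕ} (hr : r ≤ J) :
    ∃ φ : (Fin m → ℤ) × (ℕ × F.ζ) → (Fin m → ℤ) × (ℕ × F.ζ), ∀ ω, trp F r ω = φ (Fam.pt F ω) := by
  refine ⟨fun y => (fun i => y.1 i / 2 ^ (J - r), (y.2.1 / 2 ^ (J - r), y.2.2)), fun ω => ?_⟩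
  refine Prod.ext ?_ rfl
  funext i
  exact X_div F (w := r) (L := J - r) (by omega) ω i

end Pool.FLF
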