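import Pool.Agent.H99.FLF.NCH
import Pool.Agent.H82.KSP.SUBC

/-!
# The hypotheses of the macro step for a family

Points: the point of precision `P` (position and time) together with the label `z`. The label is
a function of the line and of the leaf window; it determines the cell of the leaf window and the
side information.
-/

set_option autoImplicit false

namespace Pool.FLF

open Finset Real
open Pool.Agent.H49.Ent Pool.Agent.H32.Dense Pool.STK Pool.KA Pool.KSAT Pool.K2S Pool.KS3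
open Pool.KAL Pool.PB Pool.KST

variable {m J n : ℕ}

/-- The leaf window in the long window. -/
lemma T1_win (F : Fam m J) {w a L P : ℕ} (h : w + (a + L) = P) (hP : P ≤ J) (ω : F.Ω) :
    F.T1 (w + a) ω = 2 ^ a * F.T1 w ω + pT (a + L) (trp F P ω) / 2 ^ L := by
  have h1 : (trp F P ω).2.1 = F.T1 P ω := rfl
  have h2 : F.T1 P ω / 2 ^ L = F.T1 (w + a) ω := by
    have := T1_div F (w := w + a) (K := L) (by omega) ω
    rw [show w + a + L = P by omega] at this
    exact this.symm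
  have h3 : F.T1 (w + a) ω / 2 ^ a = F.T1 w ω := (T1_div F (w := w) (K := a) (by omega) ω).symm
  unfold pT
  rw [mod_div_pow, h1, h2, ← h3]
  exact (Nat.div_add_mod _ _).symm

/-- The position at lower resolution. -/
lemma Xr_div (F : Fam m J) {w L r : ℕ} (h : w + L = r) (ω : F.Ω) (i : Fin m) :
    F.X r ω i / 2 ^ L = F.X w ω i := by
  have h1 := Xr_emod F h ω i
  have h2 := Int.emod_add_mul_ediv (F.X r ω i) (2 ^ L)
  have h3 : (0 : ℤ) < 2 ^ L := by positivity
  have h4 : (2 : ℤ) ^ L * F.X w ω i = 2 ^ L * (F.X r ω i / 2 ^ L) := by linarith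
  exact (mul_left_cancel₀ h3.ne' h4).symm

/-- The cell of the leaf window in the long window. -/
def czo (a : ℕ) (c : Option (Fin n) → Option (Fin m)) (b : ℕ × (Fin m → ℤ)) (o : Option (Fin n)) :
    ℕ := (c o).elim (b.1 % 2 ^ a) (fun i => (b.2 i % 2 ^ a).toNat)

/-- **The leaves of a family in a long window**, at precision `P`. -/
theorem stepFr (F : Fam m J) {w a L P : ℕ} (h : w + (a + L) = P) (hP : P ≤ J)
    (c : Option (Fin n) → Option (Fin m))
    (cl : ((Fin m → ℝ) × (Fin m → ℝ)) × F.ζ × ℕ → Fin m → ℤ)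
    (hcl : ∀ ω, F.X w ω = cl (slam F w ω)) {Z : Type} (z : F.Ω → Z)
    (zs : ((Fin m → ℝ) × (Fin m → ℝ)) × F.ζ × ℕ → Z)
    (hz : ∀ ω, z ω = zs (slam F (w + a) ω)) (cz : Z → ℕ × (Fin m → ℤ))
    (hcz : ∀ ω, cz (z ω) = (F.T1 (w + a) ω, F.X (w + a) ω)) :
    StepF n a L 2 F.p (slam F w) (fun ω => (trp F P ω, z ω)) (fun ξ => pT (a + L) ξ.1)
      (fun ξ => ppos (a + L) c ξ.1) (lA w c cl) (lB c) (fun ξ => ξ.2)
      (fun l t => zs (l.1, l.2.1, 2 ^ a * l.2.2 + t)) (fun y => czo a c (cz y)) where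
  leaf := by
    have h1 := leafr F h hP c cl hcl
    exact ⟨h1.isLaw, h1.T_lt, h1.pos_lt, h1.near, h1.A_le, h1.B_le⟩
  lab := by
    intro ω
    simp only
    rw [hz ω]
    have h1 : slam F (w + a) ω = (F.l ω, F.Z ω, F.T1 (w + a) ω) := rfl
    have h2 : slam F w ω = (F.l ω, F.Z ω, F.T1 w ω) := rfl
    rw [h1, h2, T1_win F h hP ω]
  cell := by
    intro ω o
    simp only [czo, hcz ω]
    unfold ppos
    cases c o with
    | none =>
      simp only [Option.elim]
      have h3 : (trp F P ω).2.1 = F.T1 P ω := rfl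
      rw [mod_div_pow, h3]
      have := T1_div F (w := w + a) (K := L) (by omega) ω
      rw [show w + a + L = P by omega] at this
      rw [← this]
    | some i =>
      simp only [Option.elim]
      rw [emod_div_pow]
      have h3 : (trp F P ω).1 i = F.X P ω i := rfl
      rw [h3, Xr_div F (show w + a + L = P by omega) ω i]

/-- The position in the leaf cube. -/
lemma posS_ppos {ζ Z : Type} (a L : ℕ) (c : Option (Fin n) → Option (Fin m))
    (ξ : ((Fin m → ℤ) × (ℕ × ζ)) × Z) (o : Option (Fin n)) :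
    posS (fun ξ : ((Fin m → ℤ) × (ℕ × ζ)) × Z => ppos (a + L) c ξ.1) L ξ o =
      ppos L c ξ.1 o := by
  show (ppos (a + L) c ξ.1 o) % 2 ^ L = ppos L c ξ.1 o
  unfold ppos
  rcases hc : c o with _ | i
  · show (ξ.1.2.1 % 2 ^ (a + L)) % 2 ^ L = ξ.1.2.1 % 2 ^ L
    rw [show a + L = L + a by omega, pow_add]
    exact Nat.mod_mul_right_mod _ _ _
  · show ((ξ.1.1 i % 2 ^ (a + L)).toNat) % 2 ^ L = (ξ.1.1 i % 2 ^ L).toNat
    have h1 := emod_toNat (ξ.1.1 i) (a + L)
    have h2 := emod_toNat (ξ.1.1 i) L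
    have h3 : (((ξ.1.1 i % 2 ^ (a + L)).toNat % 2 ^ L : ℕ) : ℤ) =
        (((ξ.1.1 i % 2 ^ L).toNat : ℕ) : ℤ) := by
      push_cast
      rw [h1, h2, show a + L = L + a by omega, pow_add]
      exact Int.emod_emod_of_dvd _ (dvd_mul_right _ _)
    exact_mod_cast h3

/-- The real position in the leaf cube. -/
lemma rp_posS {ζ Z : Type} (a L : ℕ) (c : Option (Fin n) → Option (Fin m))
    (ξ : ((Fin m → ℤ) × (ℕ × ζ)) × Z) (o : Option (Fin n)) :
    rp (2 ^ L) (posS (fun ξ : ((Fin m → ℤ) × (ℕ × ζ)) × Z => ppos (a + L) c ξ.1) L) ξ o =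
      rp (2 ^ L) (ppos L c) ξ.1 o := by
  unfold rp
  rw [posS_ppos]

/-- **Time fullness of the leaf windows.** -/
theorem time_small (F : Fam m J) {w a L P : ℕ} (h : w + (a + L) = P) (hP : P ≤ J) {Z : Type}
    (z : F.Ω → Z) {e : ℝ} (he : F.Tm e) :
    L * Real.log 2 - CH F.p (fun ω => TS (fun ξ : ((Fin m → ℤ) × (ℕ × F.ζ)) × Z =>
      pT (a + L) ξ.1) L (trp F P ω, z ω))
      (lamS (slam F w) (fun ω => (trp F P ω, z ω)) (fun ξ => pT (a + L) ξ.1) L) ≤ e := by
  have h0 := F.isLaw.nonneg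
  have c1 := time_fullr F (w := w + a) (L := L) (r := P) (by omega) hP he
  have e1 : CH F.p (fun ω => TS (fun ξ : ((Fin m → ℤ) × (ℕ × F.ζ)) × Z =>
      pT (a + L) ξ.1) L (trp F P ω, z ω))
      (lamS (slam F w) (fun ω => (trp F P ω, z ω)) (fun ξ => pT (a + L) ξ.1) L) =
      CH F.p (fun ω => pT L (trp F P ω)) (slam F (w + a)) := by
    have k1 : ∀ ω, TS (fun ξ : ((Fin m → ℤ) × (ℕ × F.ζ)) × Z => pT (a + L) ξ.1) L
        (trp F P ω, z ω) = pT L (trp F P ω) := by
      intro ω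
      unfold TS pT
      simp only
      rw [show a + L = L + a by omega, pow_add]
      exact Nat.mod_mul_right_mod _ _ _
    have k2 : ∀ ω, slam F (w + a) ω = (F.l ω, F.Z ω, F.T1 (w + a) ω) := fun _ => rfl
    have k3 : ∀ ω, lamS (slam F w) (fun ω => (trp F P ω, z ω)) (fun ξ => pT (a + L) ξ.1) L ω =
        ((F.l ω, F.Z ω, F.T1 w ω), pT (a + L) (trp F P ω) / 2 ^ L) := fun _ => rfl
    have k4 : ∀ ω, pT (a + L) (trp F P ω) / 2 ^ L = F.T1 (w + a) ω % 2 ^ a := by
      intro ω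
      have h3 : (trp F P ω).2.1 = F.T1 P ω := rfl
      unfold pT
      rw [mod_div_pow, h3]
      have := T1_div F (w := w + a) (K := L) (by omega) ω
      rw [show w + a + L = P by omega] at this
      rw [← this]
    refine CH_congr h0 ?_ ?_ ?_ ?_
    · intro ω ω' _ _ hh
      have h1 := (Prod.ext_iff.mp hh).1
      simp only at h1 ⊢
      rw [k1, k1] at h1
      exact h1
    · intro ω ω' _ _ hh
      have h1 := (Prod.ext_iff.mp hh).1
      simp only at h1 ⊢
      rw [k1, k1]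
      exact h1
    · intro ω ω' _ _ hh
      rw [k3, k3] at hh
      simp only [Prod.mk.injEq] at hh
      rw [k2, k2, T1_win F h hP ω, T1_win F h hP ω', hh.1.1, hh.1.2.1, hh.1.2.2, hh.2]
    · intro ω ω' _ _ hh
      rw [k2, k2] at hh
      simp only [Prod.mk.injEq] at hh
      have b1 := T1_div F (w := w) (K := a) (by omega) ω
      have b2 := T1_div F (w := w) (K := a) (by omega) ω'
      rw [k3, k3, k4, k4, b1, b2, hh.1, hh.2.1, hh.2.2]
  rw [e1]
  exact c1

/-- **Time fullness of the long windows.** -/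
theorem time_long (F : Fam m J) {w a L P : ℕ} (h : w + (a + L) = P) (hP : P ≤ J) {Z : Type}
    (z : F.Ω → Z) {e : ℝ} (he : F.Tm e) :
    ((a : ℝ) + L) * Real.log 2 - CH F.p (fun ω => (fun ξ : ((Fin m → ℤ) × (ℕ × F.ζ)) × Z =>
      pT (a + L) ξ.1) (trp F P ω, z ω)) (slam F w) ≤ e := by
  have c1 := time_fullr F (w := w) (L := a + L) (r := P) h hP he
  push_cast at c1
  exact c1

/-- The points of resolution `P` from the position in the window. -/
lemma trp_of_pos (F : Fam m J) (i₁ : Fin m) {w L P : ℕ} (h : w + L = P) (hP : P ≤ J)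
    {ω ω' : F.Ω} (hT : F.T1 w ω = F.T1 w ω') (hX : ∀ j, F.X w ω j = F.X w ω' j)
    (hZ : F.Z ω = F.Z ω')
    (hb : ∀ i, ppos L (chI i₁) (trp F P ω) (some i) = ppos L (chI i₁) (trp F P ω') (some i))
    (hn : F.X P ω i₁ = F.X P ω' i₁) : trp F P ω = trp F P ω' := by
  have ht : F.T1 P ω = F.T1 P ω' := by
    have h1 := hb i₁
    unfold ppos chI at h1
    simp only [Option.elim, if_true] at h1
    have h2 : (trp F P ω).2.1 = F.T1 P ω := rfl
    have h3 : (trp F P ω').2.1 = F.T1 P ω' := rfl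
    rw [h2, h3] at h1
    have h4 := T1_div F (w := w) (K := L) (by omega) ω
    have h5 := T1_div F (w := w) (K := L) (by omega) ω'
    rw [h] at h4 h5
    have h6 := Nat.div_add_mod (F.T1 P ω) (2 ^ L)
    have h7 := Nat.div_add_mod (F.T1 P ω') (2 ^ L)
    rw [← h6, ← h7, h1, ← h4, ← h5, hT]
  have hx : ∀ j, F.X P ω j = F.X P ω' j := by
    intro j
    by_cases hj : j = i₁
    · rw [hj]
      exact hn
    · have h1 := hb j
      unfold ppos chI at h1
      simp only [Option.elim, if_neg hj] at h1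
      have h2 : (trp F P ω).1 j = F.X P ω j := rfl
      have h3 : (trp F P ω').1 j = F.X P ω' j := rfl
      rw [h2, h3] at h1
      have h4 := emod_toNat (F.X P ω j) L
      have h5 := emod_toNat (F.X P ω' j) L
      rw [h1] at h4
      have h6 : F.X P ω j % 2 ^ L = F.X P ω' j % 2 ^ L := h4.symm.trans h5
      rw [Xr_emod F h ω j, Xr_emod F h ω' j, hX j] at h6
      linarith
  refine Prod.ext (funext hx) (Prod.ext ht hZ)

/-- **Thinness of the labels.** -/
theorem thin_fam (F : Fam m J) (i₁ : Fin m) {w a L P : ℕ} (h : w + (a + L) = P) (hP : P ≤ J)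
    {Z : Type} (z : F.Ω → Z) (cz : Z → ℕ × (Fin m → ℤ)) (cζ : Z → F.ζ)
    (G : Z → MvPolynomial (Fin m) ℝ) {C₀ : ℝ} (hC₀ : 0 ≤ C₀)
    (hcz : ∀ ω, cz (z ω) = (F.T1 (w + a) ω, F.X (w + a) ω)) (hcζ : ∀ ω, cζ (z ω) = F.Z ω)
    (hgr : ∀ ω, |rp (2 ^ L) (ppos L (chI i₁)) (trp F P ω) none - MvPolynomial.eval
      (fun j => rp (2 ^ L) (ppos L (chI i₁)) (trp F P ω) (some j)) (G (z ω))| ≤ C₀ / 2 ^ L) :
    CH F.p (fun ω => (trp F P ω, z ω)) (fun ω => (bas (fun ξ : ((Fin m → ℤ) × (ℕ × F.ζ)) × Z =>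
      ppos (a + L) (chI i₁) ξ.1) (trp F P ω, z ω), z ω)) ≤ Real.log (2 * C₀ + 1) := by
  have h0 := F.isLaw.nonneg
  have h2L : (0 : ℝ) < 2 ^ L := by positivity
  have b1 := CH_le_add h0 (fun ω => (trp F P ω, z ω)) (fun ω => F.X P ω i₁)
    (fun ω => (bas (fun ξ : ((Fin m → ℤ) × (ℕ × F.ζ)) × Z =>
      ppos (a + L) (chI i₁) ξ.1) (trp F P ω, z ω), z ω))
  have b2 : CH F.p (fun ω => (trp F P ω, z ω)) (fun ω => (F.X P ω i₁,
      (bas (fun ξ : ((Fin m → ℤ) × (ℕ × F.ζ)) × Z =>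
        ppos (a + L) (chI i₁) ξ.1) (trp F P ω, z ω), z ω))) = 0 := by
    refine CH_eq_zero h0 ?_
    intro ω ω' _ _ hh
    simp only [Prod.mk.injEq] at hh
    obtain ⟨h1, h2, h3⟩ := hh
    have c1 : cz (z ω) = cz (z ω') := by rw [h3]
    rw [hcz, hcz] at c1
    have c2 := (Prod.ext_iff.mp c1).1
    have c3 := (Prod.ext_iff.mp c1).2
    simp only at c2 c3
    refine Prod.ext ?_ h3
    refine trp_of_pos F i₁ (w := w + a) (L := L) (by omega) hP c2 (fun j => congrFun c3 j) ?_ ?_ h1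
    · rw [← hcζ ω, ← hcζ ω', h3]
    · intro i
      have h4 : ppos (a + L) (chI i₁) (trp F P ω) (some i) =
          ppos (a + L) (chI i₁) (trp F P ω') (some i) := congrFun h2 i
      have h5 := posS_ppos a L (chI i₁) (trp F P ω, z ω) (some i)
      have h6 := posS_ppos a L (chI i₁) (trp F P ω', z ω') (some i)
      rw [← h5, ← h6]
      unfold posS
      simp only
      rw [h4]
  rw [b2, add_zero] at b1
  refine b1.trans ?_
  obtain ⟨S, hS⟩ : ∃ S : (Fin m → ℕ) × Z → Finset ℤ, S = fun v => Finset.Icc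
    ⌈(2 ^ L * ((cz v.2).2 i₁ : ℝ) + 2 ^ L * MvPolynomial.eval
      (fun j => ((v.1 j % 2 ^ L : ℕ) : ℝ) / 2 ^ L) (G v.2)) - C₀⌉
    ⌊(2 ^ L * ((cz v.2).2 i₁ : ℝ) + 2 ^ L * MvPolynomial.eval
      (fun j => ((v.1 j % 2 ^ L : ℕ) : ℝ) / 2 ^ L) (G v.2)) + C₀⌋ := ⟨_, rfl⟩
  have hin : ∀ ω, F.X P ω i₁ ∈ S (bas (fun ξ : ((Fin m → ℤ) × (ℕ × F.ζ)) × Z =>
      ppos (a + L) (chI i₁) ξ.1) (trp F P ω, z ω), z ω) := by
    intro ω
    have e1 : (fun j => (((bas (fun ξ : ((Fin m → ℤ) × (ℕ × F.ζ)) × Z =>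
        ppos (a + L) (chI i₁) ξ.1) (trp F P ω, z ω) j) % 2 ^ L : ℕ) : ℝ) / 2 ^ L) =
        fun j => rp (2 ^ L) (ppos L (chI i₁)) (trp F P ω) (some j) := by
      funext j
      have h5 := posS_ppos a L (chI i₁) (trp F P ω, z ω) (some j)
      unfold rp
      rw [← h5]
      push_cast
      rfl
    have e2 : ((cz (z ω)).2 i₁ : ℝ) = F.X (w + a) ω i₁ := by rw [hcz]
    have e3 : 2 ^ L * rp (2 ^ L) (ppos L (chI i₁)) (trp F P ω) none =
        (F.X P ω i₁ : ℝ) - 2 ^ L * F.X (w + a) ω i₁ := by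
      have h1 := pas_cell F i₁ (w := w + a) (L := L) (P := P) (by omega) ω
      have hP2 : (2 : ℝ) ^ P = 2 ^ (w + a) * 2 ^ L := by rw [← h, ← add_assoc, pow_add]
      rw [hP2] at h1
      have hwa : (0 : ℝ) < 2 ^ (w + a) := by positivity
      field_simp at h1
      linarith
    have h1 := hgr ω
    rw [le_div_iff₀ h2L] at h1
    have h2 : |(rp (2 ^ L) (ppos L (chI i₁)) (trp F P ω) none - MvPolynomial.eval
        (fun j => rp (2 ^ L) (ppos L (chI i₁)) (trp F P ω) (some j)) (G (z ω))) * 2 ^ L| ≤ C₀ := by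
      rw [abs_mul, abs_of_pos h2L]
      exact h1
    rw [sub_mul, mul_comm (rp (2 ^ L) (ppos L (chI i₁)) (trp F P ω) none) ((2 : ℝ) ^ L), e3,
      abs_le] at h2
    rw [hS]
    simp only
    rw [e1, e2, Finset.mem_Icc]
    constructor
    · rw [Int.ceil_le]
      linarith [h2.1]
    · rw [Int.le_floor]
      linarith [h2.2]
  refine (CH_le_card h0 F.isLaw.sum_one _ _ S fun ω _ => hin ω).trans ?_
  refine (Ex_mono h0 fun ω _ => ?_).trans (le_of_eq (Ex_const F.isLaw.sum_one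
    (Real.log (2 * C₀ + 1))))
  have hpos : 0 < (S (bas (fun ξ : ((Fin m → ℤ) × (ℕ × F.ζ)) × Z =>
      ppos (a + L) (chI i₁) ξ.1) (trp F P ω, z ω), z ω)).card :=
    Finset.card_pos.mpr ⟨_, hin ω⟩
  refine Real.log_le_log (by exact_mod_cast hpos) ?_
  rw [hS]
  exact card_near _ _ hC₀

/-- **The points given their position**, the long cell and the side information. -/
theorem tail_fam (F : Fam m J) (i₁ : Fin m) {w L P r : ℕ} (h : w + L = P) (hPr : P ≤ r)
    (hr : r ≤ J) {Z β : Type} (z : F.Ω → Z)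
    (zt : (Fin m → ℤ) × (ℕ × F.ζ) → Z) (hz : ∀ ω, z ω = zt (trp F r ω)) (b : F.Ω → β)
    (bT : β → ℕ) (bX : β → Fin m → ℤ) (bZ : β → F.ζ)
    (hb : ∀ ω, bT (b ω) = F.T1 w ω ∧ bX (b ω) = F.X w ω ∧ bZ (b ω) = F.Z ω) :
    CH F.p (fun ω => (trp F P ω, z ω))
      (fun ω => (ppos L (chI i₁) (trp F P ω), b ω)) ≤
      (m + 1) * ((r - P : ℕ) * Real.log 2) := by
  classical
  have h0 := F.isLaw.nonneg
  have d0 : ∀ ω ω', trp F r ω = trp F r ω' → trp F P ω = trp F P ω' := by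
    intro ω ω' hh
    have h1 : ∀ j, F.X r ω j = F.X r ω' j := fun j => congrFun (Prod.ext_iff.mp hh).1 j
    have h2 : F.T1 r ω = F.T1 r ω' := (Prod.ext_iff.mp (Prod.ext_iff.mp hh).2).1
    have h3 : F.Z ω = F.Z ω' := (Prod.ext_iff.mp (Prod.ext_iff.mp hh).2).2
    refine Prod.ext (funext fun j => ?_) (Prod.ext ?_ h3)
    · have h4 := Xr_div F (w := P) (L := r - P) (r := r) (by omega) ω j
      have h5 := Xr_div F (w := P) (L := r - P) (r := r) (by omega) ω' j
      rw [h1 j] at h4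
      exact h4.symm.trans h5
    · have h4 := T1_div F (w := P) (K := r - P) (by omega) ω
      have h5 := T1_div F (w := P) (K := r - P) (by omega) ω'
      rw [show P + (r - P) = r by omega] at h4 h5
      rw [h2] at h4
      exact h4.trans h5.symm
  have b1 := CH_le_add h0 (fun ω => (trp F P ω, z ω)) (fun ω => trp F r ω)
    (fun ω => (ppos L (chI i₁) (trp F P ω), b ω))
  have b2 : CH F.p (fun ω => (trp F P ω, z ω)) (fun ω => (trp F r ω,
      (ppos L (chI i₁) (trp F P ω), b ω))) = 0 := by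
    refine CH_eq_zero h0 ?_
    intro ω ω' _ _ hh
    have h1 : trp F r ω = trp F r ω' := (Prod.ext_iff.mp hh).1
    refine Prod.ext (d0 ω ω' h1) ?_
    simp only
    rw [hz, hz, h1]
  rw [b2, add_zero] at b1
  refine b1.trans ?_
  -- the finite sets
  obtain ⟨XP, hXP⟩ : ∃ XP : (Option (Fin m) → ℕ) × β → Fin m → ℤ, XP = fun c j =>
    2 ^ L * bX c.2 j + (if j = i₁ then c.1 none else c.1 (some j) : ℕ) := ⟨_, rfl⟩
  obtain ⟨TP, hTP⟩ : ∃ TP : (Option (Fin m) → ℕ) × β → ℕ, TP = fun c =>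
    2 ^ L * bT c.2 + c.1 (some i₁) := ⟨_, rfl⟩
  obtain ⟨S, hS⟩ : ∃ S : (Option (Fin m) → ℕ) × β →
      Finset ((Fin m → ℤ) × (ℕ × F.ζ)), S = fun c =>
    ((Fintype.piFinset fun _ : Fin m => Finset.range (2 ^ (r - P))) ×ˢ
      Finset.range (2 ^ (r - P))).image (fun v => ((fun j => 2 ^ (r - P) * XP c j + (v.1 j : ℤ)),
        (2 ^ (r - P) * TP c + v.2, bZ c.2))) := ⟨_, rfl⟩
  have hin : ∀ ω, trp F r ω ∈ S (ppos L (chI i₁) (trp F P ω), b ω) := by
    intro ω
    obtain ⟨hb1, hb2, hb3⟩ := hb ω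
    have hx : ∀ j, XP (ppos L (chI i₁) (trp F P ω), b ω) j = F.X P ω j := by
      intro j
      rw [hXP]
      simp only
      rw [hb2]
      have h1 := emod_toNat (F.X P ω j) L
      have h2 := Xr_emod F h ω j
      by_cases hj : j = i₁
      · rw [if_pos hj]
        have h3 : ppos L (chI i₁) (trp F P ω) none = (F.X P ω j % 2 ^ L).toNat := by
          rw [hj]
          rfl
        rw [h3, h1, h2]
        ring
      · rw [if_neg hj]
        have h3 : ppos L (chI i₁) (trp F P ω) (some j) = (F.X P ω j % 2 ^ L).toNat := by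
          unfold ppos chI
          simp only [Option.elim, if_neg hj]
          rfl
        rw [h3, h1, h2]
        ring
    have ht : TP (ppos L (chI i₁) (trp F P ω), b ω) = F.T1 P ω := by
      rw [hTP]
      simp only
      rw [hb1]
      have h3 : ppos L (chI i₁) (trp F P ω) (some i₁) = F.T1 P ω % 2 ^ L := by
        unfold ppos chI
        simp only [Option.elim, if_true]
        rfl
      have h4 := T1_div F (w := w) (K := L) (by omega) ω
      rw [h] at h4
      rw [h3, h4]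
      exact Nat.div_add_mod _ _
    rw [hS]
    simp only
    rw [Finset.mem_image]
    refine ⟨(fun j => (F.X r ω j % 2 ^ (r - P)).toNat, F.T1 r ω % 2 ^ (r - P)), ?_, ?_⟩
    · rw [Finset.mem_product, Fintype.mem_piFinset]
      refine ⟨fun j => ?_, ?_⟩
      · rw [Finset.mem_range]
        have h1 := emod_toNat (F.X r ω j) (r - P)
        have h2 : F.X r ω j % 2 ^ (r - P) < 2 ^ (r - P) := Int.emod_lt_of_pos _ (by positivity)
        have h3 : ((((F.X r ω j % 2 ^ (r - P)).toNat : ℕ)) : ℤ) < ((2 ^ (r - P) : ℕ) : ℤ) := by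
          rw [h1]
          push_cast
          exact h2
        exact_mod_cast h3
      · rw [Finset.mem_range]
        exact Nat.mod_lt _ (Nat.two_pow_pos _)
    · refine Prod.ext (funext fun j => ?_) (Prod.ext ?_ hb3)
      · simp only
        rw [hx j, emod_toNat, Xr_emod F (w := P) (L := r - P) (r := r) (by omega) ω j]
        have h9 : (trp F r ω).1 j = F.X r ω j := rfl
        rw [h9]
        ring
      · simp only
        rw [ht]
        have h4 := T1_div F (w := P) (K := r - P) (by omega) ω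
        rw [show P + (r - P) = r by omega] at h4
        rw [h4]
        exact Nat.div_add_mod _ _
  refine (CH_le_card h0 F.isLaw.sum_one _ _ S fun ω _ => hin ω).trans ?_
  refine (Ex_mono h0 fun ω _ => ?_).trans (le_of_eq (Ex_const F.isLaw.sum_one
    ((m + 1) * ((r - P : ℕ) * Real.log 2))))
  have hpos : 0 < (S (ppos L (chI i₁) (trp F P ω), b ω)).card :=
    Finset.card_pos.mpr ⟨_, hin ω⟩
  have hcard : ((S (ppos L (chI i₁) (trp F P ω), b ω)).card : ℝ) ≤
      (2 : ℝ) ^ ((r - P) * (m + 1)) := by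
    rw [hS]
    have h1 := Finset.card_image_le (s := ((Fintype.piFinset fun _ : Fin m =>
      Finset.range (2 ^ (r - P))) ×ˢ Finset.range (2 ^ (r - P))))
      (f := fun v : (Fin m → ℕ) × ℕ => ((fun j => 2 ^ (r - P) *
        XP (ppos L (chI i₁) (trp F P ω), b ω) j + (v.1 j : ℤ)),
        (2 ^ (r - P) * TP (ppos L (chI i₁) (trp F P ω), b ω) + v.2,
          bZ (ppos L (chI i₁) (trp F P ω), b ω).2)))
    rw [Finset.card_product, Fintype.card_piFinset] at h1
    simp only [Finset.card_range, Finset.prod_const, Finset.card_univ, Fintype.card_fin] at h1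
    have h2 : (2 ^ (r - P)) ^ m * 2 ^ (r - P) = 2 ^ ((r - P) * (m + 1)) := by
      rw [← pow_mul, ← pow_add]
      congr 1
    rw [h2] at h1
    exact_mod_cast h1
  refine (Real.log_le_log (by exact_mod_cast hpos) hcard).trans (le_of_eq ?_)
  rw [Real.log_pow]
  push_cast
  ring

/-- **The hypotheses of the macro step for a family** in which the label holds for all samples. -/
theorem stepH_fam (F : Fam m J) (i₁ : Fin m) {w a L P : ℕ} (h : w + (a + L) = P) (hP : P ≤ J)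
    (cl : ((Fin m → ℝ) × (Fin m → ℝ)) × F.ζ × ℕ → Fin m → ℤ)
    (hcl : ∀ ω, F.X w ω = cl (slam F w ω)) {Z : Type} (z : F.Ω → Z)
    (zs : ((Fin m → ℝ) × (Fin m → ℝ)) × F.ζ × ℕ → Z)
    (hz : ∀ ω, z ω = zs (slam F (w + a) ω)) (cz : Z → ℕ × (Fin m → ℤ)) (cζ : Z → F.ζ)
    (hcz : ∀ ω, cz (z ω) = (F.T1 (w + a) ω, F.X (w + a) ω)) (hcζ : ∀ ω, cζ (z ω) = F.Z ω)
    (G : Z → MvPolynomial (Fin m) ℝ) {C₀ : ℝ} {K : ℕ} (hC₀ : 2 ≤ C₀)
    (hreg : ∀ ω, RegG (G (z ω)) (fun _ => 0) 1 K C₀)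
    (hgr : ∀ ω, |rp (2 ^ L) (ppos L (chI i₁)) (trp F P ω) none - MvPolynomial.eval
      (fun j => rp (2 ^ L) (ppos L (chI i₁)) (trp F P ω) (some j)) (G (z ω))| ≤ C₀ / 2 ^ L)
    {κ γ N : ℕ} {δ ε e₁ : ℝ} (hδ : 0 < δ) (e : ((Fin m → ℤ) × (ℕ × F.ζ)) × Z → ℝ)
    (he : ∀ ξ, 0 ≤ e ξ) (hex : Ex F.p (fun ω => e (trp F P ω, z ω)) ≤ ε)
    (hnc : NCF F.p (slam F w) (fun ω => (trp F P ω, z ω)) (lB (chI i₁)) δ e)
    (hγ : m.factorial * (6 * C₀) ^ m ≤ δ ^ m * 2 ^ γ) (hκ : 1 ≤ κ) (hT : F.Tm e₁)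
    (he₁ : 0 ≤ e₁) :
    StepH m a L C₀ K κ γ N δ ε e₁ (Real.log (2 * C₀ + 1)) F.p (slam F w)
      (fun ω => (trp F P ω, z ω)) (fun ξ => pT (a + L) ξ.1)
      (fun ξ => ppos (a + L) (chI i₁) ξ.1) (lA w (chI i₁) cl) (lB (chI i₁)) (fun ξ => ξ.2)
      (fun l t => zs (l.1, l.2.1, 2 ^ a * l.2.2 + t)) (fun y => czo a (chI i₁) (cz y)) G e where
  step := StepF.mono (stepFr F h hP (chI i₁) cl hcl z zs hz cz hcz) hC₀
  reg := fun ω _ => ⟨(hreg ω).deg, fun y hy i => ((hreg ω).slope y hy i).trans (by linarith)⟩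
  gr := by
    intro ω _
    simp only
    have h1 : (fun i => rp (2 ^ L) (posS (fun ξ : ((Fin m → ℤ) × (ℕ × F.ζ)) × Z =>
        ppos (a + L) (chI i₁) ξ.1) L) (trp F P ω, z ω) (some i)) =
        fun i => rp (2 ^ L) (ppos L (chI i₁)) (trp F P ω) (some i) := by
      funext i
      exact rp_posS a L (chI i₁) (trp F P ω, z ω) (some i)
    rw [h1, rp_posS a L (chI i₁) (trp F P ω, z ω) none]
    refine (hgr ω).trans ?_
    refine div_le_div_of_nonneg_right ?_ (by positivity)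
    linarith
  hδ := hδ
  he := he
  hex := hex
  hnc := hnc
  hγ := hγ
  hκ := hκ
  he₁ := time_small F h hP z hT
  he₁0 := he₁
  he₃ := thin_fam F i₁ h hP z cz cζ G (by linarith) hcz hcζ hgr

/-- The cell of the small cubes is a function of the line and of the window. -/
lemma cel_fam (F : Fam m J) (i₁ : Fin m) {w a L P u L' : ℕ} (h : w + (a + L) = P) (hP : P ≤ J)
    (hL : u + L' = L) {Z : Type} (z : F.Ω → Z)
    (cl2 : ((Fin m → ℝ) × (Fin m → ℝ)) × F.ζ × ℕ → Fin m → ℤ)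
    (hcl2 : ∀ ω, F.X (w + a + u) ω = cl2 (slam F (w + a + u) ω)) (ω : F.Ω) :
    cel (2 ^ L') (fun ξ : ((Fin m → ℤ) × (ℕ × F.ζ)) × Z => ppos (a + L) (chI i₁) ξ.1)
      (trp F P ω, z ω) =
      (fun (l : ((Fin m → ℝ) × (Fin m → ℝ)) × F.ζ × ℕ) (t : ℕ) => czo (a + u) (chI i₁)
        (2 ^ (a + u) * l.2.2 + t, cl2 (l.1, l.2.1, 2 ^ (a + u) * l.2.2 + t))) (slam F w ω)
        (pT (a + L) (trp F P ω) / 2 ^ L') := by
  subst hL
  have h2 : slam F w ω = (F.l ω, F.Z ω, F.T1 w ω) := rfl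
  have hT := T1_win F (w := w) (a := a + u) (L := L') (P := P) (by omega) hP ω
  have e1 : a + (u + L') = a + u + L' := by omega
  have h3 : (2 ^ (a + u) * F.T1 w ω + pT (a + (u + L')) (trp F P ω) / 2 ^ L') =
      F.T1 (w + (a + u)) ω := by
    rw [e1]
    exact hT.symm
  simp only
  rw [h2]
  simp only
  rw [h3]
  have h4 : cl2 (F.l ω, F.Z ω, F.T1 (w + (a + u)) ω) = F.X (w + (a + u)) ω := by
    have := hcl2 ω
    rw [show w + a + u = w + (a + u) by omega] at this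
    exact this.symm
  rw [h4]
  funext o
  simp only [cel, czo]
  unfold ppos
  rcases hc : chI i₁ o with _ | i
  · show ((trp F P ω).2.1 % 2 ^ (a + (u + L'))) / 2 ^ L' = F.T1 (w + (a + u)) ω % 2 ^ (a + u)
    rw [e1, mod_div_pow]
    have h5 : (trp F P ω).2.1 = F.T1 P ω := rfl
    have := T1_div F (w := w + (a + u)) (K := L') (by omega) ω
    rw [show w + (a + u) + L' = P by omega] at this
    rw [h5, ← this]
  · show ((trp F P ω).1 i % 2 ^ (a + (u + L'))).toNat / 2 ^ L' =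
      (F.X (w + (a + u)) ω i % 2 ^ (a + u)).toNat
    rw [e1, emod_div_pow]
    have h5 : (trp F P ω).1 i = F.X P ω i := rfl
    rw [h5, Xr_div F (show w + (a + u) + L' = P by omega) ω i]

end Pool.FLF
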