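import Pool.Agent.H82.KSP.STF
import Pool.Agent.H13.K2S.Lin
import Pool.Agent.H12.KA.WIN

/-!
# From families to leaves

A family of lines with a random time, seen in a window of length `2 ^ (-w)`. If the cell of the
window is a function of the line then the incidences are a leaf in the sense of `Pool.KS3`.
A chart assigns to each coordinate of the leaf a coordinate of space or the time (`none`).
-/

set_option autoImplicit false

namespace Pool.FLF

open Finset Real
open Pool.Agent.H49.Ent Pool.Agent.H32.Dense Pool.STK Pool.KA Pool.KSAT Pool.K2S Pool.KS3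

variable {m J n : ℕ} {ζ : Type}

/-- The time of a point in its window of `2 ^ L` times. -/
def pT (L : ℕ) (ξ : (Fin m → ℤ) × (ℕ × ζ)) : ℕ := ξ.2.1 % 2 ^ L

/-- The position of a point in its cell, in the coordinates of the chart. -/
def ppos (L : ℕ) (c : Option (Fin n) → Option (Fin m)) (ξ : (Fin m → ℤ) × (ℕ × ζ))
    (o : Option (Fin n)) : ℕ :=
  (c o).elim (ξ.2.1 % 2 ^ L) (fun i => (ξ.1 i % 2 ^ L).toNat)

/-- The position of the line at the beginning of the window, in the coordinates of the chart. -/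
noncomputable def lA (w : ℕ) (c : Option (Fin n) → Option (Fin m))
    (cl : ((Fin m → ℝ) × (Fin m → ℝ)) × ζ × ℕ → Fin m → ℤ)
    (l : ((Fin m → ℝ) × (Fin m → ℝ)) × ζ × ℕ) (o : Option (Fin n)) : ℝ :=
  (c o).elim 0 (fun i => 2 ^ w * (l.1.1 i + (l.2.2 : ℝ) / 2 ^ w * l.1.2 i) - cl l i)

/-- The velocity of the line, in the coordinates of the chart. -/
def lB (c : Option (Fin n) → Option (Fin m)) (l : ((Fin m → ℝ) × (Fin m → ℝ)) × ζ × ℕ)
    (o : Option (Fin n)) : ℝ :=
  (c o).elim 1 (fun i => l.1.2 i)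

lemma emod_toNat (a : ℤ) (L : ℕ) : (((a % 2 ^ L).toNat : ℕ) : ℤ) = a % 2 ^ L :=
  Int.toNat_of_nonneg (Int.emod_nonneg _ (by positivity))

/-- The digits of the position below `2 ^ (-w)`. -/
lemma X_emod (F : Fam m J) {w L : ℕ} (h : w + L = J) (ω : F.Ω) (i : Fin m) :
    F.X J ω i % 2 ^ L = F.X J ω i - 2 ^ L * F.X w ω i := by
  have h1 : F.X w ω i = F.X J ω i / 2 ^ L := by
    have e0 : (2 : ℝ) ^ J = 2 ^ w * 2 ^ L := by rw [← h, pow_add]
    have e2 : (2 : ℝ) ^ w * F.x ω i = (2 ^ J * F.x ω i) / ((2 ^ L : ℕ) : ℝ) := by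
      rw [e0]
      push_cast
      field_simp
    have e3 : F.X w ω i = ⌊(2 : ℝ) ^ w * F.x ω i⌋ := rfl
    have e4 : F.X J ω i = ⌊(2 : ℝ) ^ J * F.x ω i⌋ := rfl
    rw [e3, e4, e2, Int.floor_div_natCast]
    push_cast
    rfl
  rw [h1]
  have := Int.emod_add_mul_ediv (F.X J ω i) (2 ^ L)
  linarith

/-- The position along the line inside the window. -/
lemma x_split (F : Fam m J) {w L : ℕ} (h : w + L = J) (ω : F.Ω) (i : Fin m) :
    2 ^ w * F.x ω i = 2 ^ w * F.x1 w ω i + ((F.T ω % 2 ^ L : ℕ) : ℝ) / 2 ^ L * F.d ω i := by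
  have h1 : J - w = L := by omega
  have h2 := Pool.KA.Win.time_split J w (F.T ω) (by omega)
  unfold Fam.x Fam.x1 Fam.T1 Fam.t
  rw [h2, h1]
  field_simp
  ring

/-- **The leaf of a family.** -/
theorem leaf (F : Fam m J) {w L : ℕ} (h : w + L = J) (c : Option (Fin n) → Option (Fin m))
    (cl : ((Fin m → ℝ) × (Fin m → ℝ)) × F.ζ × ℕ → Fin m → ℤ)
    (hcl : ∀ ω, F.X w ω = cl (slam F w ω)) :
    Leaf n (2 ^ L) 2 F.p (slam F w) (Fam.pt F) (pT L) (ppos L c) (lA w c cl) (lB c) := by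
  have hL : (0 : ℝ) < 2 ^ L := by positivity
  have hM : ((2 ^ L : ℕ) : ℝ) = 2 ^ L := by push_cast; rfl
  have hJr : (2 : ℝ) ^ J = 2 ^ w * 2 ^ L := by rw [← h, pow_add]
  have hfl : ∀ ω i, 0 ≤ 2 ^ w * F.x ω i - F.X w ω i ∧ 2 ^ w * F.x ω i - F.X w ω i < 1 := by
    intro ω i
    unfold Fam.X fl rd
    exact ⟨sub_nonneg.2 (Int.floor_le _), by
      have := Int.lt_floor_add_one (2 ^ w * F.x ω i)
      linarith⟩
  have hq : ∀ ω, 0 ≤ ((F.T ω % 2 ^ L : ℕ) : ℝ) / 2 ^ L ∧ ((F.T ω % 2 ^ L : ℕ) : ℝ) / 2 ^ L ≤ 1 := by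
    intro ω
    refine ⟨by positivity, ?_⟩
    rw [div_le_one hL]
    have : F.T ω % 2 ^ L < 2 ^ L := Nat.mod_lt _ (Nat.two_pow_pos L)
    exact_mod_cast this.le
  refine
    { isLaw := F.isLaw
      T_lt := fun ω => Nat.mod_lt _ (Nat.two_pow_pos L)
      pos_lt := ?_
      near := ?_
      A_le := ?_
      B_le := ?_ }
  · intro ω o
    unfold ppos
    cases c o with
    | none => exact Nat.mod_lt _ (Nat.two_pow_pos L)
    | some i =>
      simp only [Option.elim]
      have h1 := emod_toNat ((Fam.pt F ω).1 i) L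
      have h2 : (Fam.pt F ω).1 i % 2 ^ L < 2 ^ L := Int.emod_lt_of_pos _ (by positivity)
      have : ((((Fam.pt F ω).1 i % 2 ^ L).toNat : ℕ) : ℤ) < ((2 ^ L : ℕ) : ℤ) := by
        rw [h1]
        push_cast
        exact h2
      exact_mod_cast this
  · intro ω o
    unfold ppos lA lB pT
    rw [hM]
    cases c o with
    | none =>
      simp only [Option.elim]
      have e1 : ((((Fam.pt F ω).2.1 % 2 ^ L : ℕ)) : ℝ) / 2 ^ L -
          (0 + (((Fam.pt F ω).2.1 % 2 ^ L : ℕ) : ℝ) / 2 ^ L * 1) = 0 := by ring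
      rw [e1, abs_zero]
      positivity
    | some i =>
      simp only [Option.elim]
      have h1 := emod_toNat ((Fam.pt F ω).1 i) L
      have h2 : (((((Fam.pt F ω).1 i % 2 ^ L).toNat : ℕ)) : ℝ) =
          (F.X J ω i : ℝ) - 2 ^ L * F.X w ω i := by
        have h3 : (((((Fam.pt F ω).1 i % 2 ^ L).toNat : ℕ) : ℤ) : ℝ) =
            ((F.X J ω i - 2 ^ L * F.X w ω i : ℤ) : ℝ) := by
          rw [h1]
          congr 1
          exact X_emod F h ω i
        have h4 : (((((Fam.pt F ω).1 i % 2 ^ L).toNat : ℕ)) : ℝ) =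
            (((((Fam.pt F ω).1 i % 2 ^ L).toNat : ℕ) : ℤ) : ℝ) := by push_cast; rfl
        rw [h4, h3]
        push_cast
        ring
      rw [h2]
      have h5 := x_split F h ω i
      have h6 : (slam F w ω).1.1 i + ((slam F w ω).2.2 : ℝ) / 2 ^ w * (slam F w ω).1.2 i =
          F.x1 w ω i := rfl
      have h7 : (slam F w ω).1.2 i = F.d ω i := rfl
      have h8 : (Fam.pt F ω).2.1 = F.T ω := rfl
      rw [h6, h7, h8, ← hcl ω]
      have h9 : (F.X J ω i : ℝ) ≤ 2 ^ J * F.x ω i ∧ 2 ^ J * F.x ω i < F.X J ω i + 1 := by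
        unfold Fam.X fl rd
        exact ⟨Int.floor_le _, Int.lt_floor_add_one _⟩
      have h10 : ((F.X J ω i : ℝ) - 2 ^ L * F.X w ω i) / 2 ^ L -
          (2 ^ w * F.x1 w ω i - F.X w ω i + ((F.T ω % 2 ^ L : ℕ) : ℝ) / 2 ^ L * F.d ω i) =
          ((F.X J ω i : ℝ) - 2 ^ J * F.x ω i) / 2 ^ L := by
        have h11 : 2 ^ w * F.x1 w ω i - (F.X w ω i : ℝ) +
            ((F.T ω % 2 ^ L : ℕ) : ℝ) / 2 ^ L * F.d ω i = 2 ^ w * F.x ω i - F.X w ω i := by
          rw [h5]; ring
        rw [h11, hJr]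
        field_simp
        ring
      rw [h10, abs_div, abs_of_pos hL]
      refine div_le_div_of_nonneg_right ?_ hL.le
      rw [abs_le]
      constructor <;> linarith [h9.1, h9.2]
  · intro ω o
    unfold lA
    cases c o with
    | none =>
      simp only [Option.elim, abs_zero]
      norm_num
    | some i =>
      simp only [Option.elim]
      have h6 : (slam F w ω).1.1 i + ((slam F w ω).2.2 : ℝ) / 2 ^ w * (slam F w ω).1.2 i =
          F.x1 w ω i := rfl
      rw [h6, ← hcl ω]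
      have h5 := x_split F h ω i
      have h3 := hfl ω i
      have h4 : |((F.T ω % 2 ^ L : ℕ) : ℝ) / 2 ^ L * F.d ω i| ≤ 1 := by
        rw [abs_mul, abs_of_nonneg (hq ω).1]
        have := F.dir ω i
        have := abs_nonneg (F.d ω i)
        have := (hq ω).2
        have := (hq ω).1
        nlinarith
      rw [abs_le] at h4 ⊢
      constructor <;> linarith [h3.1, h3.2, h4.1, h4.2]
  · intro ω o
    unfold lB
    cases c o with
    | none =>
      simp only [Option.elim]
      norm_num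
    | some i =>
      simp only [Option.elim]
      have : |(slam F w ω).1.2 i| ≤ 1 := F.dir ω i
      linarith

end Pool.FLF
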